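import Mathlib
import Pool.Agent.H98R2.Ev.Defs

set_option autoImplicit false

/-! Evasiveness: from query strategies to decision trees. -/

namespace Pool.Agent.H98R2.Ev

open Finset

universe u

section T3

theorem t3_mem_toG {V : Type} [DecidableEq V] (S : Finset (EV V)) (e : Sym2 V) :
    e ∈ (toG S).edgeSet ↔ ∃ h : ¬ e.IsDiag, (⟨e, h⟩ : EV V) ∈ S := by
  unfold toG
  rw [SimpleGraph.edgeSet_fromEdgeSet]
  constructor
  · rintro ⟨h, _⟩
    exact h
  · intro h
    exact ⟨h, h.1⟩

open Classical in
/-- unqueried pairs -/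
noncomputable def t3U {n : ℕ} (Q : Finset (Sym2 (Fin n))) : Finset (EV (Fin n)) :=
  univ.filter (fun e => e.1 ∉ Q)

open Classical in
/-- queried pairs that are edges -/
noncomputable def t3B {n : ℕ} (Q : Finset (Sym2 (Fin n))) (G : SimpleGraph (Fin n)) :
    Finset (EV (Fin n)) :=
  univ.filter (fun e => e.1 ∈ Q ∧ e.1 ∈ G.edgeSet)

theorem t3_agree {n : ℕ} (Q : Finset (Sym2 (Fin n))) (G : SimpleGraph (Fin n))
    (S : Finset (EV (Fin n))) (hS : S ⊆ t3U Q) :
    ∀ e ∈ Q, (e ∈ (toG (S ∪ t3B Q G)).edgeSet ↔ e ∈ G.edgeSet) := by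
  classical
  intro e he
  rw [t3_mem_toG]
  constructor
  · rintro ⟨h, h1⟩
    rw [mem_union] at h1
    rcases h1 with h1 | h1
    · have := hS h1
      simp only [t3U, mem_filter, mem_univ, true_and] at this
      exact absurd he this
    · simp only [t3B, mem_filter, mem_univ, true_and] at h1
      exact h1.2
  · intro h
    have hd : ¬ e.IsDiag := SimpleGraph.not_isDiag_of_mem_edgeSet G h
    refine ⟨hd, ?_⟩
    rw [mem_union]
    right
    simp only [t3B, mem_filter, mem_univ, true_and]
    exact ⟨he, h⟩

theorem t3_claim {n : ℕ} (P : SimpleGraph (Fin n) → Prop)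
    (s : Finset (Sym2 (Fin n)) → SimpleGraph (Fin n) → Sym2 (Fin n))
    (hs : ∀ (Q : Finset (Sym2 (Fin n))) (G H : SimpleGraph (Fin n)),
      (∀ e ∈ Q, (e ∈ G.edgeSet ↔ e ∈ H.edgeSet)) → s Q G = s Q H) (k : ℕ) :
    ∀ (Q : Finset (Sym2 (Fin n))) (G : SimpleGraph (Fin n)),
      (∀ G' : SimpleGraph (Fin n), (∀ e ∈ Q, (e ∈ G'.edgeSet ↔ e ∈ G.edgeSet)) →
        ∀ H' : SimpleGraph (Fin n),
          (∀ e ∈ (fun Q : Finset (Sym2 (Fin n)) => insert (s Q G') Q)^[k] Q,
            (e ∈ G'.edgeSet ↔ e ∈ H'.edgeSet)) → P G' → P H') →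
      k < (t3U Q).card → NE (t3U Q) (fun S => ¬ P (toG (S ∪ t3B Q G))) := by
  classical
  induction k with
  | zero =>
    intro Q G hyp hk
    refine NE.const _ _ (Finset.card_pos.mp hk) ?_
    simp only [Function.iterate_zero, id_eq] at hyp
    have hsame : ∀ G' H' : SimpleGraph (Fin n), (∀ e ∈ Q, (e ∈ G'.edgeSet ↔ e ∈ G.edgeSet)) →
        (∀ e ∈ Q, (e ∈ H'.edgeSet ↔ e ∈ G.edgeSet)) → P G' → P H' := by
      intro G' H' h1 h2
      exact hyp G' h1 H' fun e he => (h1 e he).trans (h2 e he).symm
    by_cases hP : P (toG (∅ ∪ t3B Q G))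
    · right
      intro S hS
      rw [not_not]
      exact hsame _ _ (t3_agree Q G ∅ (Finset.empty_subset _)) (t3_agree Q G S hS) hP
    · left
      intro S hS h
      exact hP (hsame _ _ (t3_agree Q G S hS) (t3_agree Q G ∅ (Finset.empty_subset _)) h)
  | succ k ih =>
    intro Q G hyp hk
    simp only [Function.iterate_succ, Function.comp] at hyp
    by_cases hx : s Q G ∈ Q
    · refine ih Q G ?_ (by omega)
      intro G' hG' H' hH'
      refine hyp G' hG' H' ?_
      have e1 : s Q G' = s Q G := hs Q G' G hG'
      rw [e1, Finset.insert_eq_of_mem hx]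
      exact hH'
    · by_cases hd : (s Q G).IsDiag
      · have hU : t3U (insert (s Q G) Q) = t3U Q := by
          ext e
          simp only [t3U, mem_filter, mem_univ, true_and, mem_insert, not_or]
          constructor
          · exact fun h => h.2
          · refine fun h => ⟨?_, h⟩
            intro he
            exact e.2 (by rw [he]; exact hd)
        have hB : t3B (insert (s Q G) Q) G = t3B Q G := by
          ext e
          simp only [t3B, mem_filter, mem_univ, true_and, mem_insert]
          constructor
          · rintro ⟨h | h, h'⟩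
            · exact absurd (by rw [h]; exact hd) e.2
            · exact ⟨h, h'⟩
          · rintro ⟨h, h'⟩
            exact ⟨Or.inr h, h'⟩
        have := ih (insert (s Q G) Q) G ?_ (by rw [hU]; omega)
        · rwa [hU, hB] at this
        · intro G' hG' H' hH'
          have hG'' : ∀ e ∈ Q, (e ∈ G'.edgeSet ↔ e ∈ G.edgeSet) :=
            fun e he => hG' e (mem_insert_of_mem he)
          refine hyp G' hG'' H' ?_
          have e1 : s Q G' = s Q G := hs Q G' G hG''
          rw [e1]
          exact hH'
      · -- a real query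
        obtain ⟨x₀, hx₀⟩ : ∃ x₀ : EV (Fin n), x₀.1 = s Q G := ⟨⟨s Q G, hd⟩, rfl⟩
        rw [← hx₀] at hx
        have hxU : x₀ ∈ t3U Q := by
          simp only [t3U, mem_filter, mem_univ, true_and]
          exact hx
        have hU : t3U (insert x₀.1 Q) = (t3U Q).erase x₀ := by
          ext e
          simp only [t3U, mem_filter, mem_univ, true_and, mem_insert, not_or, mem_erase, ne_eq,
            Subtype.ext_iff]
        have hcard : k < (t3U (insert x₀.1 Q)).card := by
          rw [hU, Finset.card_erase_of_mem hxU]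
          omega
        -- the hypothesis is inherited by both answers
        have hinh : ∀ G₁ : SimpleGraph (Fin n), (∀ e ∈ Q, (e ∈ G₁.edgeSet ↔ e ∈ G.edgeSet)) →
            NE (t3U (insert x₀.1 Q)) (fun S => ¬ P (toG (S ∪ t3B (insert x₀.1 Q) G₁))) := by
          intro G₁ h₁
          refine ih (insert x₀.1 Q) G₁ ?_ hcard
          intro G' hG' H' hH'
          have hG'' : ∀ e ∈ Q, (e ∈ G'.edgeSet ↔ e ∈ G.edgeSet) :=
            fun e he => (hG' e (mem_insert_of_mem he)).trans (h₁ e he)
          refine hyp G' hG'' H' ?_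
          have e1 : s Q G' = x₀.1 := by rw [hx₀]; exact hs Q G' G hG''
          rw [e1]
          exact hH'
        have hBe : ∀ e : EV (Fin n), e ∈ t3B Q G → e.1 ∈ Q := by
          intro e he
          simp only [t3B, mem_filter, mem_univ, true_and] at he
          exact he.1
        refine NE.node _ _ x₀ hxU ?_ ?_
        · have h0 := hinh (toG (∅ ∪ t3B Q G)) (t3_agree Q G ∅ (Finset.empty_subset _))
          have hB : t3B (insert x₀.1 Q) (toG (∅ ∪ t3B Q G)) = t3B Q G := by
            ext e
            unfold t3B
            rw [mem_filter, t3_mem_toG, Finset.empty_union]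
            constructor
            · rintro ⟨_, _, _, h2⟩
              exact h2
            · intro h2
              exact ⟨mem_univ _, mem_insert_of_mem (hBe e h2), e.2, h2⟩
          rw [hB, hU] at h0
          exact h0
        · obtain ⟨B', hB'⟩ : ∃ B' : Finset (EV (Fin n)), B' = insert x₀ (t3B Q G) := ⟨_, rfl⟩
          have hag : ∀ e ∈ Q, (e ∈ (toG B').edgeSet ↔ e ∈ G.edgeSet) := by
            intro e he
            rw [← t3_agree Q G ∅ (Finset.empty_subset _) e he, t3_mem_toG, t3_mem_toG,
              Finset.empty_union, hB']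
            constructor
            · rintro ⟨h, h1⟩
              refine ⟨h, ?_⟩
              rw [mem_insert] at h1
              rcases h1 with h1 | h1
              · exfalso
                have : e = x₀.1 := congrArg Subtype.val h1
                exact hx (this ▸ he)
              · exact h1
            · rintro ⟨h, h1⟩
              exact ⟨h, mem_insert_of_mem h1⟩
          have h1 := hinh (toG B') hag
          have hB : t3B (insert x₀.1 Q) (toG B') = B' := by
            ext e
            constructor
            · intro he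
              unfold t3B at he
              rw [mem_filter, t3_mem_toG] at he
              obtain ⟨_, _, _, h2⟩ := he
              exact h2
            · intro he
              unfold t3B
              rw [mem_filter, t3_mem_toG]
              refine ⟨mem_univ _, ?_, e.2, he⟩
              rw [hB', mem_insert] at he
              rcases he with he | he
              · rw [he]
                exact mem_insert_self _ _
              · exact mem_insert_of_mem (hBe e he)
          rw [hB, hU] at h1
          have hfun : (fun S : Finset (EV (Fin n)) =>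
              ¬ P (toG (insert x₀ S ∪ t3B Q G))) =
              (fun S => ¬ P (toG (S ∪ B'))) := by
            funext S
            rw [hB', Finset.insert_union, Finset.union_insert]
          show NE ((t3U Q).erase x₀) (fun S : Finset (EV (Fin n)) =>
              ¬ P (toG (insert x₀ S ∪ t3B Q G)))
          rw [hfun]
          exact h1

theorem ne_of_strategy (n : ℕ) (hn : 2 ≤ n) (P : SimpleGraph (Fin n) → Prop)
    (s : Finset (Sym2 (Fin n)) → SimpleGraph (Fin n) → Sym2 (Fin n))
    (hs : ∀ (Q : Finset (Sym2 (Fin n))) (G H : SimpleGraph (Fin n)),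
      (∀ e ∈ Q, (e ∈ G.edgeSet ↔ e ∈ H.edgeSet)) → s Q G = s Q H)
    (hbad : ¬ ∃ G H : SimpleGraph (Fin n),
      (∀ e ∈ (fun Q : Finset (Sym2 (Fin n)) => insert (s Q G) Q)^[n.choose 2 - 1]
        (∅ : Finset (Sym2 (Fin n))), (e ∈ G.edgeSet ↔ e ∈ H.edgeSet)) ∧ P G ∧ ¬ P H) :
    NE (univ : Finset (EV (Fin n))) (fun S => ¬ P (toG S)) := by
  classical
  have hU : t3U (∅ : Finset (Sym2 (Fin n))) = univ := by
    ext e
    simp [t3U]
  have hB : t3B (∅ : Finset (Sym2 (Fin n))) ⊥ = ∅ := by
    ext e
    simp [t3B]
  have hcard : (univ : Finset (EV (Fin n))).card = n.choose 2 := by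
    rw [Finset.card_univ]
    have := Sym2.card_subtype_not_diag (α := Fin n)
    rw [Fintype.card_fin] at this
    rw [← this]
  have hpos : 1 ≤ n.choose 2 := Nat.choose_pos hn
  have h := t3_claim P s hs (n.choose 2 - 1) ∅ ⊥ ?_ (by rw [hU, hcard]; omega)
  · rw [hU, hB] at h
    simpa only [Finset.union_empty] using h
  · intro G' _ H' hH' hP
    by_contra hn'
    exact hbad ⟨G', H', hH', hP, hn'⟩

end T3

end Pool.Agent.H98R2.Ev
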