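import Mathlib

set_option autoImplicit false
set_option linter.unusedSectionVars false

/-! Orbits of a permutation of prime order. -/

namespace Pool.Agent.H98R2.Ev

open Finset

universe u

section T4
variable {Y : Type u} [Fintype Y] [DecidableEq Y]

theorem fixed_of_pow {p : ℕ} (hp : p.Prime) {g : Equiv.Perm Y} (hg : g ^ p = 1) {k : ℕ}
    (hk0 : 0 < k) (hkp : k < p) {y : Y} (h : (g ^ k) y = y) : g y = y := by
  have hcop : Nat.Coprime k p := ((Nat.Prime.coprime_iff_not_dvd hp).2 (Nat.not_dvd_of_pos_of_lt hk0 hkp)).symm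
  have h1 : (1 : ℤ) = k * Nat.gcdA k p + p * Nat.gcdB k p := by
    have := Nat.gcd_eq_gcd_ab k p
    rw [hcop] at this
    exact_mod_cast this
  have h2 : g = (g ^ k) ^ (Nat.gcdA k p) * (g ^ p) ^ (Nat.gcdB k p) := by
    rw [← zpow_natCast g k, ← zpow_natCast g p, ← zpow_mul, ← zpow_mul, ← zpow_add, ← h1, zpow_one]
  rw [hg, one_zpow, mul_one] at h2
  rw [h2]
  exact Equiv.Perm.zpow_apply_eq_self_of_apply_eq_self h _

theorem pow_inj {p : ℕ} (hp : p.Prime) {g : Equiv.Perm Y} (hg : g ^ p = 1) {y : Y}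
    (hy : g y ≠ y) {i j : ℕ} (hi : i < p) (hj : j < p) (h : (g ^ i) y = (g ^ j) y) : i = j := by
  by_contra hne
  wlog hij : i < j generalizing i j
  · exact this hj hi h.symm (fun e => hne e.symm) (by omega)
  apply hy
  apply fixed_of_pow hp hg (k := j - i) (by omega) (by omega)
  have h1 : (g ^ j) y = (g ^ i) ((g ^ (j - i)) y) := by
    rw [← Equiv.Perm.mul_apply, ← pow_add]
    congr 2
    omega
  rw [h1] at h
  exact ((g ^ i).injective h).symm

/-- A representative of the orbit of `y`. -/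
noncomputable def rep (g : Equiv.Perm Y) (y : Y) : Y :=
  Quotient.out (Quotient.mk (Equiv.Perm.SameCycle.setoid g) y)

theorem rep_same (g : Equiv.Perm Y) (y : Y) : g.SameCycle (rep g y) y :=
  Quotient.exact (s := Equiv.Perm.SameCycle.setoid g) (Quotient.out_eq _)

theorem rep_eq_of_same {g : Equiv.Perm Y} {x y : Y} (h : g.SameCycle x y) : rep g x = rep g y := by
  unfold rep
  congr 1
  exact Quotient.sound (s := Equiv.Perm.SameCycle.setoid g) h

theorem rep_apply (g : Equiv.Perm Y) (y : Y) : rep g (g y) = rep g y :=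
  rep_eq_of_same (Equiv.Perm.sameCycle_apply_left.2 (Equiv.Perm.SameCycle.refl g y))

theorem rep_pow (g : Equiv.Perm Y) (i : ℕ) (y : Y) : rep g ((g ^ i) y) = rep g y :=
  rep_eq_of_same (Equiv.Perm.sameCycle_pow_left.2 (Equiv.Perm.SameCycle.refl g y))

theorem pow_mod_eq {p : ℕ} {g : Equiv.Perm Y} (hg : g ^ p = 1) (m : ℤ) (hp : 0 < p) :
    ∃ j < p, g ^ m = g ^ j := by
  have hp' : (0 : ℤ) < p := by exact_mod_cast hp
  have hnn : 0 ≤ m % (p : ℤ) := Int.emod_nonneg _ hp'.ne'
  refine ⟨(m % p).toNat, ?_, ?_⟩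
  · have := Int.emod_lt_of_pos m hp'
    omega
  · rw [← zpow_natCast g, Int.toNat_of_nonneg hnn]
    conv_lhs => rw [← Int.emod_add_mul_ediv m p, zpow_add, zpow_mul, zpow_natCast, hg, one_zpow,
      mul_one]

theorem exists_pow_rep {p : ℕ} {g : Equiv.Perm Y} (hg : g ^ p = 1) (hp : 0 < p) (y : Y) :
    ∃ j, j < p ∧ (g ^ j) (rep g y) = y := by
  obtain ⟨m, hm⟩ := rep_same g y
  obtain ⟨j, hj, hmj⟩ := pow_mod_eq hg m hp
  exact ⟨j, hj, by rw [← hmj]; exact hm⟩

theorem exists_pow_rep' {p : ℕ} {g : Equiv.Perm Y} (hg : g ^ p = 1) (hp : 0 < p) (y : Y) :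
    ∃ j, j < p ∧ (g ^ j) y = rep g y := by
  obtain ⟨m, hm⟩ := (rep_same g y).symm
  obtain ⟨j, hj, hmj⟩ := pow_mod_eq hg m hp
  exact ⟨j, hj, by rw [← hmj]; exact hm⟩

/-- `ker (1 - g) = fixed + im (1 + g + ... + g^{p-1})` -/
theorem inv_decomp (p : ℕ) [Fact p.Prime] (g : Equiv.Perm Y) (hg : g ^ p = 1)
    (c : Y → ZMod p) (hc : ∀ y, c (g y) = c y) :
    ∃ z : Y → ZMod p, (∀ y, z y ≠ 0 → c y ≠ 0) ∧
      ∀ y, g y ≠ y → c y = ∑ i ∈ range p, z ((g ^ i) y) := by
  have hp : p.Prime := Fact.out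
  have hcp : ∀ (i : ℕ) (y : Y), c ((g ^ i) y) = c y := by
    intro i
    induction i with
    | zero => intro y; simp
    | succ i ih =>
      intro y
      rw [pow_succ', Equiv.Perm.mul_apply, hc, ih]
  refine ⟨fun y => if y = rep g y then c y else 0, ?_, ?_⟩
  · intro y hy h0
    apply hy
    simp only
    split_ifs
    · exact h0
    · rfl
  · intro y hy
    obtain ⟨j, hj, hjy⟩ := exists_pow_rep' hg hp.pos y
    rw [sum_eq_single j]
    · show c y = if (g ^ j) y = rep g ((g ^ j) y) then c ((g ^ j) y) else 0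
      rw [rep_pow, if_pos hjy, hcp]
    · intro i hi hij
      show (if (g ^ i) y = rep g ((g ^ i) y) then c ((g ^ i) y) else 0) = 0
      rw [rep_pow, if_neg]
      intro h
      apply hij
      exact pow_inj hp hg hy (mem_range.1 hi) hj (h.trans hjy.symm)
    · intro h
      exact absurd (mem_range.2 hj) h

/-- `ker (1 + g + ... + g^{p-1}) = fixed + im (1 - g)` -/
theorem norm_decomp (p : ℕ) [Fact p.Prime] (g : Equiv.Perm Y) (hg : g ^ p = 1)
    (c : Y → ZMod p) (hc : ∀ y, ∑ i ∈ range p, c ((g ^ i) y) = 0) :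
    ∃ z : Y → ZMod p, (∀ y, z y ≠ 0 → ∃ i < p, c ((g ^ i) y) ≠ 0) ∧
      ∀ y, g y ≠ y → c y = z y - z (g y) := by
  classical
  have hp : p.Prime := Fact.out
  have hex := exists_pow_rep hg hp.pos
  choose J hJp hJ using hex
  have hrepnf : ∀ y, g y ≠ y → g (rep g y) ≠ rep g y := by
    intro y hy h
    apply hy
    have h1 : (g ^ J y) (rep g y) = rep g y :=
      Equiv.Perm.pow_apply_eq_self_of_apply_eq_self h _
    have h2 : rep g y = y := h1.symm.trans (hJ y)
    rw [← h2]
    exact h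
  refine ⟨fun y => if g y = y then 0 else -∑ i ∈ range (J y), c ((g ^ i) (rep g y)), ?_, ?_⟩
  · intro y hy
    simp only at hy
    by_cases hfix : g y = y
    · rw [if_pos hfix] at hy
      exact absurd rfl hy
    · rw [if_neg hfix] at hy
      obtain ⟨i, hi, hne⟩ := exists_ne_zero_of_sum_ne_zero (neg_ne_zero.1 hy)
      rw [mem_range] at hi
      have hJy := hJp y
      refine ⟨p - J y + i, by omega, ?_⟩
      have h5 : (g ^ (p - J y + i)) ((g ^ J y) (rep g y)) = (g ^ i) (rep g y) := by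
        rw [← Equiv.Perm.mul_apply, ← pow_add]
        have : p - J y + i + J y = p + i := by omega
        rw [this, pow_add, hg, one_mul]
      rw [hJ y] at h5
      rw [h5]
      exact hne
  · intro y hy
    have hgy : g (g y) ≠ g y := fun h => hy (g.injective h)
    simp only
    rw [if_neg hy, if_neg hgy, rep_apply]
    have hnf := hrepnf y hy
    have hJy := hJ y
    have hJgy := hJ (g y)
    rw [rep_apply] at hJgy
    have hlt := hJp y
    have hlt' := hJp (g y)
    rcases Nat.lt_or_ge (J y + 1) p with h1 | h1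
    · have h2 : J (g y) = J y + 1 := by
        apply pow_inj hp hg hnf hlt' h1
        rw [hJgy, pow_succ', Equiv.Perm.mul_apply, hJy]
      rw [h2, sum_range_succ, hJy]
      ring
    · have h3 : J y + 1 = p := by omega
      have h2 : J (g y) = 0 := by
        apply pow_inj hp hg hnf hlt' hp.pos
        rw [hJgy, pow_zero, Equiv.Perm.one_apply]
        have : g y = (g ^ (J y + 1)) (rep g y) := by
          rw [pow_succ', Equiv.Perm.mul_apply, hJy]
        rw [this, h3, hg, Equiv.Perm.one_apply]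
      rw [h2, sum_range_zero, neg_zero, sub_zero]
      have h4 := hc (rep g y)
      have h3' : range p = range (J y + 1) := by rw [h3]
      rw [h3', sum_range_succ, hJy] at h4
      linear_combination h4
end T4

end Pool.Agent.H98R2.Ev
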