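import Mathlib

set_option autoImplicit false

/-! Task E6, algebraic part (helper109): an integer matrix `M` with `M * M = 0` that is exact
modulo a prime has Lefschetz numbers zero. -/

namespace Pool.Agent.H98R2.Ev

open Matrix

/-- a differential which is exact over a field has a contracting homotopy -/
theorem exists_homotopy {K : Type} [Field K] {I : Type*} [Fintype I] [DecidableEq I]
    (M : Matrix I I K) (hMM : M * M = 0) (hex : ∀ v : I → K, M *ᵥ v = 0 → ∃ w, M *ᵥ w = v) :
    ∃ S : Matrix I I K, M * S + S * M = 1 := by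
  let L : (I → K) →ₗ[K] (I → K) := Matrix.toLin' M
  have hL : ∀ v, L v = M *ᵥ v := fun v => Matrix.toLin'_apply M v
  have hLL : ∀ v, L (L v) = 0 := by
    intro v
    rw [hL, hL, Matrix.mulVec_mulVec, hMM, Matrix.zero_mulVec]
  obtain ⟨t₀, ht₀⟩ := LinearMap.exists_rightInverse_of_surjective L.rangeRestrict
    (LinearMap.range_rangeRestrict L)
  obtain ⟨t, ht⟩ := LinearMap.exists_extend t₀
  have htr : ∀ v, L (t (L v)) = L v := by
    intro v
    have h1 : t (L v) = t₀ ⟨L v, ⟨v, rfl⟩⟩ := by
      have := LinearMap.congr_fun ht ⟨L v, ⟨v, rfl⟩⟩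
      simpa using this
    have h2 := congrArg Subtype.val (LinearMap.congr_fun ht₀ ⟨L v, ⟨v, rfl⟩⟩)
    rw [h1]
    simpa using h2
  have htk : ∀ z, L z = 0 → L (t z) = z := by
    intro z hz
    obtain ⟨w, hw⟩ := hex z (by rw [← hL]; exact hz)
    rw [← hw, ← hL, htr]
  obtain ⟨s, hs⟩ : ∃ s : (I → K) →ₗ[K] (I → K), L ∘ₗ s + s ∘ₗ L = LinearMap.id := by
    refine ⟨t ∘ₗ (LinearMap.id - t ∘ₗ L), ?_⟩
    apply LinearMap.ext
    intro v
    have h1 : L (t (v - t (L v))) = v - t (L v) := by
      apply htk
      rw [map_sub, htr, sub_self]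
    simp only [LinearMap.add_apply, LinearMap.comp_apply, LinearMap.sub_apply, LinearMap.id_apply]
    rw [h1, hLL, map_zero, sub_zero]
    abel
  refine ⟨LinearMap.toMatrix' s, ?_⟩
  have h2 := congrArg LinearMap.toMatrix' hs
  rw [map_add, LinearMap.toMatrix'_comp, LinearMap.toMatrix'_comp, LinearMap.toMatrix'_id] at h2
  have h3 : LinearMap.toMatrix' L = M := LinearMap.toMatrix'_toLin' M
  rw [h3] at h2
  exact h2

/-- the algebraic Lefschetz lemma -/
theorem lef_alg (p : ℕ) [Fact p.Prime] {I : Type*} [Fintype I] [DecidableEq I]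
    (M G D : Matrix I I ℤ) (hMM : M * M = 0)
    (hex : ∀ v : I → ZMod p, (M.map (Int.castRingHom (ZMod p))) *ᵥ v = 0 →
      ∃ w, (M.map (Int.castRingHom (ZMod p))) *ᵥ w = v)
    (hGM : G * M = M * G) (hDM : D * M = -(M * D)) : (D * G).trace = 0 := by
  obtain ⟨S₀, hS₀⟩ := exists_homotopy (M.map (Int.castRingHom (ZMod p)))
    (by rw [← Matrix.map_mul, hMM]; ext i j; simp) hex
  let S : Matrix I I ℤ := Matrix.of fun i j => ((S₀ i j).val : ℤ)
  have hS : S.map (Int.castRingHom (ZMod p)) = S₀ := by
    ext i j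
    simp [S]
  set U := M * S + S * M with hU
  have hUp : U.map (Int.castRingHom (ZMod p)) = 1 := by
    rw [← hS₀, hU, ← hS]
    rw [Matrix.map_add _ (fun a b => map_add _ a b), Matrix.map_mul, Matrix.map_mul]
  have hd : U.det ≠ 0 := by
    intro h
    have h1 := (Int.castRingHom (ZMod p)).map_det U
    rw [h, map_zero] at h1
    have h2 : (Int.castRingHom (ZMod p)).mapMatrix U = 1 := hUp
    rw [h2, Matrix.det_one] at h1
    exact zero_ne_one h1
  have hMU : M * U = U * M := by
    rw [hU, mul_add, add_mul, ← mul_assoc, hMM, zero_mul, zero_add, mul_assoc S M M, hMM,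
      mul_zero, add_zero, mul_assoc]
  set V := U.adjugate with hV
  have hUV : U * V = U.det • (1 : Matrix I I ℤ) := Matrix.mul_adjugate U
  have hVU : V * U = U.det • (1 : Matrix I I ℤ) := Matrix.adjugate_mul U
  have hMV : V * M = M * V := by
    have h1 : U.det • (V * M) = U.det • (M * V) := by
      calc U.det • (V * M) = V * M * (U.det • (1 : Matrix I I ℤ)) := by
            rw [Matrix.mul_smul, mul_one]
        _ = V * M * (U * V) := by rw [hUV]
        _ = V * (M * U) * V := by simp only [mul_assoc]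
        _ = V * (U * M) * V := by rw [hMU]
        _ = (V * U) * M * V := by simp only [mul_assoc]
        _ = U.det • (M * V) := by rw [hVU, Matrix.smul_mul, one_mul, Matrix.smul_mul]
    ext i j
    have h2 := congrFun (congrFun h1 i) j
    simp only [Matrix.smul_apply, smul_eq_mul] at h2
    exact mul_left_cancel₀ hd h2
  set T := V * S with hT
  have hMT : M * T + T * M = U.det • (1 : Matrix I I ℤ) := by
    rw [hT, ← mul_assoc, ← hMV, mul_assoc, mul_assoc, ← mul_add, ← hU, hVU]
  have h1 : (D * G * (M * T + T * M)).trace = 0 := by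
    rw [mul_add, Matrix.trace_add]
    have h2 : (D * G * (M * T)).trace = -(D * G * (T * M)).trace := by
      calc (D * G * (M * T)).trace = (D * (G * M) * T).trace := by simp only [mul_assoc]
        _ = ((D * M) * (G * T)).trace := by rw [hGM]; simp only [mul_assoc]
        _ = (-(M * (D * G * T))).trace := by rw [hDM]; simp only [neg_mul, mul_assoc]
        _ = -((D * G * T) * M).trace := by rw [Matrix.trace_neg, Matrix.trace_mul_comm]
        _ = -(D * G * (T * M)).trace := by simp only [mul_assoc]
    rw [h2]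
    ring
  rw [hMT, Matrix.mul_smul, mul_one, Matrix.trace_smul, smul_eq_mul] at h1
  exact (mul_eq_zero.mp h1).resolve_left hd

end Pool.Agent.H98R2.Ev
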