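import Mathlib
import Pool.Agent.H98R2.Ev.Defs

set_option autoImplicit false

/-! Counting modulo q (task E7 of helper98, proved by helper156). -/

namespace Pool.Agent.H98R2.Ev

open Finset

universe u

section T7
variable {X : Type u} [DecidableEq X] [PartialOrder X] [Fintype X]

omit [DecidableEq X] [Fintype X] in
/-- an order automorphism that maps a chain to itself fixes it pointwise -/
theorem chain_fixed' (g : X ≃o X) (σ : Finset X) (h : IsChain (· ≤ ·) (σ : Set X))
    (hg : σ.map g.toEmbedding = σ) (q : ℕ) (hq0 : 0 < q) (hq : ∀ x, g^[q] x = x) :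
    ∀ x ∈ σ, g x = x := by
  intro x hx
  have hmem : ∀ y ∈ σ, g y ∈ σ := by
    intro y hy
    have h1 : g y ∈ σ.map g.toEmbedding := Finset.mem_map.2 ⟨y, hy, rfl⟩
    rw [hg] at h1
    exact h1
  have hgx := hmem x hx
  rcases h.total hgx hx with h1 | h1
  · -- g x ≤ x
    have h2 : ∀ m : ℕ, g^[m] x ≤ x := by
      intro m
      induction m with
      | zero => simp
      | succ m ih =>
        rw [Function.iterate_succ_apply']
        exact (g.monotone ih).trans h1
    have h3 : x ≤ g x := by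
      obtain ⟨m, rfl⟩ : ∃ m, q = m + 1 := ⟨q - 1, by omega⟩
      have h4 := hq x
      rw [Function.iterate_succ_apply'] at h4
      calc x = g (g^[m] x) := h4.symm
        _ ≤ g x := g.monotone (h2 m)
    exact le_antisymm h1 h3
  · have h2 : ∀ m : ℕ, x ≤ g^[m] x := by
      intro m
      induction m with
      | zero => simp
      | succ m ih =>
        rw [Function.iterate_succ_apply']
        exact h1.trans (g.monotone ih)
    have h3 : g x ≤ x := by
      obtain ⟨m, rfl⟩ : ∃ m, q = m + 1 := ⟨q - 1, by omega⟩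
      have h4 := hq x
      rw [Function.iterate_succ_apply'] at h4
      calc g x ≤ g (g^[m] x) := g.monotone (h2 m)
        _ = x := h4
    exact le_antisymm h3 h1

theorem end_pow_aux {Y : Type*} (f : Y → Y) (F : Function.End Y) (hF : F = f) (m : ℕ) :
    (F ^ m : Function.End Y) = (f^[m] : Y → Y) := by
  induction m with
  | zero => rfl
  | succ m ih =>
    rw [pow_succ', ih, hF]
    have h := Function.iterate_succ' f m
    rw [h]
    rfl

open Classical in
theorem count_aux (q : ℕ) [Fact q.Prime] (g : X ≃o X) (hq : ∀ x, g^[q] x = x)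
    (R : Finset X → Prop) (hR : ∀ σ, R σ → R (σ.map g.toEmbedding)) (S S' : Finset (Finset X))
    (hS : ∀ σ, σ ∈ S ↔ R σ) (hS' : ∀ σ, σ ∈ S' ↔ R σ ∧ σ.map g.toEmbedding = σ) :
    S.card ≡ S'.card [MOD q] := by
  obtain ⟨f, hf⟩ : ∃ f : {σ : Finset X // R σ} → {σ : Finset X // R σ},
      ∀ y, f y = ⟨y.1.map g.toEmbedding, hR y.1 y.2⟩ := ⟨fun y => ⟨_, hR y.1 y.2⟩, fun y => rfl⟩
  have hit : ∀ (m : ℕ) (y : {σ : Finset X // R σ}),
      ((f^[m] y).1 : Finset X) = y.1.image (g^[m]) := by
    intro m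
    induction m with
    | zero => intro y; simp
    | succ m ih =>
      intro y
      rw [Function.iterate_succ_apply', hf]
      change (f^[m] y).1.map g.toEmbedding = _
      rw [Finset.map_eq_image, ih, Finset.image_image]
      congr 1
      rw [Function.iterate_succ']
      rfl
  obtain ⟨F, hF⟩ : ∃ F : Function.End {σ : Finset X // R σ}, F = f := ⟨f, rfl⟩
  have hfq : F ^ q ^ 1 = 1 := by
    rw [pow_one, end_pow_aux f F hF]
    funext y
    apply Subtype.ext
    change (f^[q] y).1 = y.1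
    rw [hit q y]
    have h3 : (g^[q]) = id := funext hq
    rw [h3, Finset.image_id]
  have key := Equiv.Perm.card_fixedPoints_modEq (p := q) (n := 1) hfq
  have key2 : Fintype.card {σ : Finset X // R σ} ≡
      Fintype.card (Function.fixedPoints f) [MOD q] := by
    subst hF
    exact key
  have e1 : Fintype.card {σ : Finset X // R σ} = S.card := by
    rw [Fintype.card_subtype]
    congr 1
    ext σ
    simp [hS]
  have e2 : Fintype.card (Function.fixedPoints f) = S'.card := by
    have e3 : S' = univ.filter (fun σ : Finset X => R σ ∧ σ.map g.toEmbedding = σ) := by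
      ext σ
      simp [hS']
    rw [e3, ← Fintype.card_subtype]
    refine Fintype.card_congr ⟨fun y => ⟨y.1.1, y.1.2, ?_⟩, fun z => ⟨⟨z.1, z.2.1⟩, ?_⟩, ?_, ?_⟩
    · have h1 : f y.1 = y.1 := y.2
      rw [hf] at h1
      exact congrArg Subtype.val h1
    · change f _ = _
      rw [hf]
      exact Subtype.ext z.2.2
    · intro y; rfl
    · intro z; rfl
  rw [e1] at key2
  rw [← e2]
  exact key2

open Classical in
theorem fixed_count (q : ℕ) [Fact q.Prime] (Q : Finset X) (g : X ≃o X) (hg : ∀ x ∈ Q, g x ∈ Q)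
    (hq : ∀ x, g^[q] x = x) (hfix : ∀ x ∈ Q, g x ≠ x) :
    (q : ℤ) ∣ (∑ σ ∈ univ.filter (fun σ : Finset X => Ch Q σ), (-1 : ℤ) ^ σ.card) - 1 := by
  have hq0 : 0 < q := (Fact.out : q.Prime).pos
  have hCh : ∀ σ, Ch Q σ → Ch Q (σ.map g.toEmbedding) := by
    intro σ hσ
    refine ⟨?_, ?_⟩
    · intro y hy
      obtain ⟨x, hx, rfl⟩ := Finset.mem_map.1 hy
      exact hg x (hσ.1 hx)
    · intro a ha b hb hab
      have ha' := Finset.mem_coe.1 ha
      have hb' := Finset.mem_coe.1 hb
      obtain ⟨x, hx, rfl⟩ := Finset.mem_map.1 ha'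
      obtain ⟨y, hy, rfl⟩ := Finset.mem_map.1 hb'
      have hxy : x ≠ y := fun h => hab (by rw [h])
      rcases hσ.2 (Finset.mem_coe.2 hx) (Finset.mem_coe.2 hy) hxy with h | h
      · exact Or.inl (g.monotone h)
      · exact Or.inr (g.monotone h)
  have hempty : ∀ σ, Ch Q σ → σ.map g.toEmbedding = σ → σ = ∅ := by
    intro σ hσ h
    by_contra hne
    obtain ⟨x, hx⟩ := Finset.nonempty_iff_ne_empty.2 hne
    exact hfix x (hσ.1 hx) (chain_fixed' g σ hσ.2 h q hq0 hq x hx)
  have hCh0 : Ch Q (∅ : Finset X) := ⟨Finset.empty_subset _, by simp⟩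
  -- even and odd chains
  have hE := count_aux q g hq (fun σ => Ch Q σ ∧ Even σ.card)
    (fun σ h => ⟨hCh σ h.1, by rw [Finset.card_map]; exact h.2⟩)
    (univ.filter (fun σ : Finset X => Ch Q σ ∧ Even σ.card)) {∅} (by intro σ; simp) (by
      intro σ
      simp only [Finset.mem_singleton]
      constructor
      · rintro rfl
        exact ⟨⟨hCh0, by simp⟩, by simp⟩
      · rintro ⟨⟨h1, _⟩, h2⟩
        exact hempty σ h1 h2)
  have hO := count_aux q g hq (fun σ => Ch Q σ ∧ ¬ Even σ.card)
    (fun σ h => ⟨hCh σ h.1, by rw [Finset.card_map]; exact h.2⟩)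
    (univ.filter (fun σ : Finset X => Ch Q σ ∧ ¬ Even σ.card)) ∅ (by intro σ; simp) (by
      intro σ
      simp only [Finset.notMem_empty, false_iff]
      rintro ⟨⟨h1, h3⟩, h2⟩
      have := hempty σ h1 h2
      subst this
      exact h3 (by simp))
  rw [Finset.card_singleton] at hE
  rw [Finset.card_empty] at hO
  have hsum : (∑ σ ∈ univ.filter (fun σ : Finset X => Ch Q σ), (-1 : ℤ) ^ σ.card) =
      ((univ.filter (fun σ : Finset X => Ch Q σ ∧ Even σ.card)).card : ℤ) -
      ((univ.filter (fun σ : Finset X => Ch Q σ ∧ ¬ Even σ.card)).card : ℤ) := by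
    rw [← Finset.sum_filter_add_sum_filter_not (univ.filter (fun σ : Finset X => Ch Q σ))
      (fun σ => Even σ.card)]
    rw [Finset.filter_filter, Finset.filter_filter]
    have h1 : ∑ σ ∈ univ.filter (fun σ : Finset X => Ch Q σ ∧ Even σ.card), (-1 : ℤ) ^ σ.card =
        ((univ.filter (fun σ : Finset X => Ch Q σ ∧ Even σ.card)).card : ℤ) := by
      rw [Finset.sum_congr rfl (g := fun _ => (1 : ℤ))]
      · simp
      · intro σ hσ
        exact Even.neg_one_pow (Finset.mem_filter.1 hσ).2.2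
    have h2 : ∑ σ ∈ univ.filter (fun σ : Finset X => Ch Q σ ∧ ¬ Even σ.card), (-1 : ℤ) ^ σ.card =
        - ((univ.filter (fun σ : Finset X => Ch Q σ ∧ ¬ Even σ.card)).card : ℤ) := by
      rw [Finset.sum_congr rfl (g := fun _ => (-1 : ℤ))]
      · simp
      · intro σ hσ
        exact Odd.neg_one_pow (Nat.not_even_iff_odd.1 (Finset.mem_filter.1 hσ).2.2)
    rw [h1, h2]
    ring
  rw [hsum]
  have hE' := (Nat.modEq_iff_dvd.1 hE)
  have hO' := (Nat.modEq_iff_dvd.1 hO)
  obtain ⟨a, ha⟩ := hE'
  obtain ⟨b, hb⟩ := hO'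
  refine ⟨b - a, ?_⟩
  push_cast at ha hb
  linarith

end T7

end Pool.Agent.H98R2.Ev
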