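import Mathlib
import Pool.Agent.H98R2.Ev.Defs

set_option autoImplicit false

/-! T10: orbits of the block group on pairs are large. -/

namespace Pool.Agent.H98R2.Ev

open Finset

universe u

section T10
variable {k p r : ℕ} [NeZero k] [Fact p.Prime] [Fact r.Prime]

/-- directed relation -/
def RR {V : Type} [DecidableEq V] (S : Finset (EV V)) (a b : V) : Prop :=
  ∃ h : ¬ (s(a, b)).IsDiag, (⟨s(a, b), h⟩ : EV V) ∈ S

theorem RR_perm {V : Type} [DecidableEq V] (S : Finset (EV V)) (π : Equiv.Perm V)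
    (h : S.map (ep π).toEmbedding = S) (a b : V) : RR S (π a) (π b) ↔ RR S a b := by
  have key : ∀ e : EV V, e ∈ S ↔ (ep π) e ∈ S := by
    intro e
    constructor
    · intro he
      rw [← h]
      exact Finset.mem_map_of_mem _ he
    · intro he
      rw [← h] at he
      obtain ⟨e', he', h'⟩ := Finset.mem_map.1 he
      have : e' = e := (ep π).injective h'
      exact this ▸ he'
  constructor
  · rintro ⟨h1, h2⟩
    have h3 : ¬ (s(a, b)).IsDiag := by
      intro hd
      apply h1
      simp only [Sym2.mk_isDiag_iff] at hd ⊢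
      rw [hd]
    refine ⟨h3, (key _).2 ?_⟩
    exact h2
  · rintro ⟨h1, h2⟩
    have h3 : ¬ (s(π a, π b)).IsDiag := by
      intro hd
      apply h1
      simp only [Sym2.mk_isDiag_iff] at hd ⊢
      exact π.injective hd
    refine ⟨h3, ?_⟩
    exact (key _).1 h2

theorem RR_symm {V : Type} [DecidableEq V] (S : Finset (EV V)) {a b : V} (h : RR S a b) :
    RR S b a := by
  obtain ⟨h1, h2⟩ := h
  have h3 : s(b, a) = s(a, b) := Sym2.eq_swap
  refine ⟨by rw [h3]; exact h1, ?_⟩
  convert h2 using 2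

theorem RR_ne {V : Type} [DecidableEq V] (S : Finset (EV V)) {a b : V} (h : RR S a b) :
    a ≠ b := by
  obtain ⟨h1, h2⟩ := h
  intro hab
  apply h1
  simp [hab]

open Classical in
theorem card_RR {V : Type} [DecidableEq V] [Fintype V] (S : Finset (EV V)) :
    (univ.filter (fun x : V × V => RR S x.1 x.2)).card = 2 * S.card := by
  have h1 : ∀ x ∈ univ.filter (fun x : V × V => RR S x.1 x.2),
      (fun x : V × V => s(x.1, x.2)) x ∈ S.image Subtype.val := by
    intro x hx
    obtain ⟨h1, h2⟩ := (Finset.mem_filter.1 hx).2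
    exact Finset.mem_image.2 ⟨_, h2, rfl⟩
  rw [Finset.card_eq_sum_card_fiberwise h1]
  have h2 : ∀ e ∈ S.image Subtype.val,
      ((univ.filter (fun x : V × V => RR S x.1 x.2)).filter
        (fun x => (fun x : V × V => s(x.1, x.2)) x = e)).card = 2 := by
    intro e he
    obtain ⟨⟨e', he'⟩, h3, rfl⟩ := Finset.mem_image.1 he
    revert he' h3
    refine Sym2.ind (fun a b => ?_) e'
    intro he' h3 _
    have hab : a ≠ b := by
      intro hab
      apply he'
      simp [hab]
    have h4 : RR S a b := ⟨he', h3⟩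
    have h5 : ((univ.filter (fun x : V × V => RR S x.1 x.2)).filter
        (fun x => (fun x : V × V => s(x.1, x.2)) x = s(a, b))) = {(a, b), (b, a)} := by
      ext ⟨x, y⟩
      simp only [Finset.mem_filter, Finset.mem_univ, true_and, Finset.mem_insert,
        Finset.mem_singleton, Sym2.eq_iff, Prod.mk.injEq]
      constructor
      · rintro ⟨_, h⟩
        exact h
      · rintro (⟨rfl, rfl⟩ | ⟨rfl, rfl⟩)
        · exact ⟨h4, Or.inl ⟨rfl, rfl⟩⟩
        · exact ⟨RR_symm S h4, Or.inr ⟨rfl, rfl⟩⟩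
    rw [h5]
    apply Finset.card_pair
    intro h6
    exact hab (Prod.mk.inj h6).1
  rw [Finset.sum_congr rfl h2, Finset.sum_const, smul_eq_mul,
    Finset.card_image_of_injective _ Subtype.val_injective, mul_comm]

theorem le_card_of_inj {V : Type} [DecidableEq V] [Fintype V] (S : Finset (EV V)) {α : Type}
    [Fintype α] (f : α → V × V) (hf : Function.Injective f) (h : ∀ a, RR S (f a).1 (f a).2) :
    Fintype.card α ≤ 2 * S.card := by
  classical
  rw [← card_RR S, ← Finset.card_univ, ← Finset.card_image_of_injective _ hf]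
  apply Finset.card_le_card
  intro x hx
  obtain ⟨a, _, rfl⟩ := Finset.mem_image.1 hx
  exact Finset.mem_filter.2 ⟨Finset.mem_univ _, h a⟩

/-! formulas for powers -/

theorem t10_tr_pow_inl (i j : ZMod k) (u : ZMod p) (m : ℕ) :
    ((tr i : Equiv.Perm (VV k p r)) ^ m) (Sum.inl (j, u)) =
      Sum.inl (j, if j = i then u + m else u) := by
  induction m with
  | zero => simp
  | succ m ih =>
    rw [pow_succ', Equiv.Perm.mul_apply, ih]
    by_cases h : j = i
    · simp [tr, h, add_assoc]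
    · simp [tr, h]

theorem t10_tr_pow_inr (i : ZMod k) (x : ZMod r) (m : ℕ) :
    ((tr i : Equiv.Perm (VV k p r)) ^ m) (Sum.inr x) = Sum.inr x := by
  induction m with
  | zero => simp
  | succ m ih =>
    rw [pow_succ', Equiv.Perm.mul_apply, ih]
    simp [tr]

theorem t10_cyc_pow_inl (g : (ZMod p)ˣ) (i : ZMod k) (u : ZMod p) (m : ℕ) :
    ((cyc g : Equiv.Perm (VV k p r)) ^ m) (Sum.inl (i, u)) =
      Sum.inl (i + m, ((g ^ m : (ZMod p)ˣ) : ZMod p) * u) := by
  induction m with
  | zero => simp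
  | succ m ih =>
    rw [pow_succ', Equiv.Perm.mul_apply, ih]
    simp [cyc, add_assoc, pow_succ', mul_assoc]

theorem t10_cyc_pow_inr (g : (ZMod p)ˣ) (x : ZMod r) (m : ℕ) :
    ((cyc g : Equiv.Perm (VV k p r)) ^ m) (Sum.inr x) = Sum.inr (x + m) := by
  induction m with
  | zero => simp
  | succ m ih =>
    rw [pow_succ', Equiv.Perm.mul_apply, ih]
    simp [cyc, add_assoc]

theorem t10_mulr_pow_inl (w : (ZMod r)ˣ) (y : ZMod k × ZMod p) (m : ℕ) :
    ((mulr w : Equiv.Perm (VV k p r)) ^ m) (Sum.inl y) = Sum.inl y := by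
  induction m with
  | zero => simp
  | succ m ih =>
    rw [pow_succ', Equiv.Perm.mul_apply, ih]
    simp [mulr]

theorem t10_mulr_pow_inr (w : (ZMod r)ˣ) (x : ZMod r) (m : ℕ) :
    ((mulr w : Equiv.Perm (VV k p r)) ^ m) (Sum.inr x) =
      Sum.inr (((w ^ m : (ZMod r)ˣ) : ZMod r) * x) := by
  induction m with
  | zero => simp
  | succ m ih =>
    rw [pow_succ', Equiv.Perm.mul_apply, ih]
    simp [mulr, pow_succ', mul_assoc]

theorem inv_pow {V : Type} (R : V → V → Prop) (π : Equiv.Perm V)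
    (h : ∀ a b, R (π a) (π b) ↔ R a b) (m : ℕ) (a b : V) :
    R ((π ^ m) a) ((π ^ m) b) ↔ R a b := by
  induction m with
  | zero => simp
  | succ m ih => rw [pow_succ', Equiv.Perm.mul_apply, Equiv.Perm.mul_apply, h, ih]

/-- the map that adds `y` on the `r`-block -/
def addR (y : ZMod r) : VV k p r → VV k p r
  | Sum.inl z => Sum.inl z
  | Sum.inr x => Sum.inr (x + y)

/-- the map `(i, u) ↦ (i + t, g^t u)` on the `p`-blocks -/
def movP (g : (ZMod p)ˣ) (t : ℕ) : VV k p r → VV k p r
  | Sum.inl (i, u) => Sum.inl (i + t, ((g ^ t : (ZMod p)ˣ) : ZMod p) * u)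
  | Sum.inr x => Sum.inr x

/-- the map that adds `z` on the `i`-th `p`-block -/
def addP (i : ZMod k) (z : ZMod p) : VV k p r → VV k p r
  | Sum.inl (j, u) => Sum.inl (j, if j = i then u + z else u)
  | Sum.inr x => Sum.inr x

theorem lcm_unit (hrp : p < r) (hrk : k < r) : ((Nat.lcm k (p - 1) : ℕ) : ZMod r) ≠ 0 := by
  intro h
  rw [ZMod.natCast_eq_zero_iff] at h
  have hr : r.Prime := Fact.out
  have hp : p.Prime := Fact.out
  have h1 : r ∣ k * (p - 1) := h.trans (Nat.lcm_dvd_mul k (p - 1))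
  rcases hr.dvd_mul.1 h1 with h2 | h2
  · exact absurd (Nat.le_of_dvd (Nat.pos_of_ne_zero (NeZero.ne k)) h2) (by omega)
  · have h3 : 0 < p - 1 := by have := hp.two_le; omega
    exact absurd (Nat.le_of_dvd h3 h2) (by omega)

theorem inv_addR (g : (ZMod p)ˣ) (hg : orderOf g = p - 1) (hrp : p < r) (hrk : k < r)
    (R : VV k p r → VV k p r → Prop) (hcyc : ∀ a b, R (cyc g a) (cyc g b) ↔ R a b)
    (y : ZMod r) (a b : VV k p r) : R (addR y a) (addR y b) ↔ R a b := by
  set L := Nat.lcm k (p - 1) with hL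
  have hLr : ((L : ℕ) : ZMod r) ≠ 0 := lcm_unit hrp hrk
  set m : ℕ := (y * ((L : ℕ) : ZMod r)⁻¹).val with hm
  have h1 : ((L * m : ℕ) : ZMod r) = y := by
    rw [Nat.cast_mul, hm, ZMod.natCast_zmod_val]
    field_simp
  have h2 : ((L * m : ℕ) : ZMod k) = 0 := by
    rw [ZMod.natCast_eq_zero_iff]
    exact (Nat.dvd_lcm_left k (p - 1)).mul_right m
  have h3 : g ^ (L * m) = 1 := by
    rw [← orderOf_dvd_iff_pow_eq_one, hg]
    exact (Nat.dvd_lcm_right k (p - 1)).mul_right m
  have h4 : ∀ c : VV k p r, addR y c = ((cyc g : Equiv.Perm (VV k p r)) ^ (L * m)) c := by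
    intro c
    rcases c with ⟨i, u⟩ | x
    · rw [t10_cyc_pow_inl, h2, h3]
      simp [addR]
    · rw [t10_cyc_pow_inr, h1]
      simp [addR]
  rw [h4, h4]
  exact inv_pow R _ hcyc _ a b

theorem inv_movP (g : (ZMod p)ˣ) (hg : orderOf g = p - 1) (hrp : p < r) (hrk : k < r)
    (R : VV k p r → VV k p r → Prop) (hcyc : ∀ a b, R (cyc g a) (cyc g b) ↔ R a b)
    (t : ℕ) (a b : VV k p r) : R (movP g t a) (movP g t b) ↔ R a b := by
  have h4 : ∀ c : VV k p r, movP g t c =
      addR (-(t : ZMod r)) (((cyc g : Equiv.Perm (VV k p r)) ^ t) c) := by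
    intro c
    rcases c with ⟨i, u⟩ | x
    · rw [t10_cyc_pow_inl]
      simp [addR, movP]
    · rw [t10_cyc_pow_inr]
      simp [addR, movP]
  rw [h4, h4, inv_addR g hg hrp hrk R hcyc]
  exact inv_pow R _ hcyc _ a b

theorem inv_addP (R : VV k p r → VV k p r → Prop) (i : ZMod k)
    (htr : ∀ a b, R (tr i a) (tr i b) ↔ R a b)
    (z : ZMod p) (a b : VV k p r) : R (addP i z a) (addP i z b) ↔ R a b := by
  have h4 : ∀ c : VV k p r, addP i z c = ((tr i : Equiv.Perm (VV k p r)) ^ z.val) c := by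
    intro c
    rcases c with ⟨j, u⟩ | x
    · rw [t10_tr_pow_inl]
      simp [addP]
    · rw [t10_tr_pow_inr]
      simp [addP]
  rw [h4, h4]
  exact inv_pow R _ htr _ a b

theorem orbit_large (g : (ZMod p)ˣ) (hg : orderOf g = p - 1) (w : (ZMod r)ˣ) (q : ℕ)
    (hw : orderOf w = q) (S : Finset (EV (VV k p r))) (hS : S.Nonempty)
    (htr : ∀ i, S.map (ep (tr i)).toEmbedding = S) (hcyc : S.map (ep (cyc g)).toEmbedding = S)
    (hmul : S.map (ep (mulr w)).toEmbedding = S) (hrp : p < r) (hrk : k < r) (N : ℕ)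
    (h1 : N ≤ r * q) (h2 : N ≤ k * p * r) (h3 : N ≤ k * p * p)
    (h4 : N ≤ p * Nat.lcm k (p - 1)) : N ≤ 2 * S.card := by
  have Hcyc : ∀ a b : VV k p r, RR S (cyc g a) (cyc g b) ↔ RR S a b := RR_perm S _ hcyc
  have Htr : ∀ (i : ZMod k) (a b : VV k p r), RR S (tr i a) (tr i b) ↔ RR S a b :=
    fun i => RR_perm S _ (htr i)
  have Hmul : ∀ a b : VV k p r, RR S (mulr w a) (mulr w b) ↔ RR S a b := RR_perm S _ hmul
  have HaddR := inv_addR g hg hrp hrk (RR S) Hcyc
  have HmovP := inv_movP g hg hrp hrk (RR S) Hcyc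
  have HaddP : ∀ i z (a b : VV k p r), RR S (addP i z a) (addP i z b) ↔ RR S a b :=
    fun i => inv_addP (RR S) i (Htr i)
  have HmulP : ∀ (m : ℕ) (a b : VV k p r),
      RR S (((mulr w : Equiv.Perm (VV k p r)) ^ m) a) (((mulr w : Equiv.Perm (VV k p r)) ^ m) b) ↔
        RR S a b := fun m => inv_pow (RR S) _ Hmul m
  -- mixed case
  have mixed : ∀ (i : ZMod k) (u : ZMod p) (x : ZMod r), RR S (Sum.inl (i, u)) (Sum.inr x) →
      N ≤ 2 * S.card := by
    intro i u x hR
    refine h2.trans ?_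
    have hc : k * p * r = Fintype.card ((ZMod k × ZMod p) × ZMod r) := by
      simp [Fintype.card_prod, ZMod.card]
    rw [hc]
    refine le_card_of_inj S (fun y : (ZMod k × ZMod p) × ZMod r =>
      ((Sum.inl y.1, Sum.inr y.2) : VV k p r × VV k p r)) ?_ ?_
    · rintro ⟨a, b⟩ ⟨a', b'⟩ h
      simp only [Prod.mk.injEq, Sum.inl.injEq, Sum.inr.injEq] at h
      rw [h.1, h.2]
    · rintro ⟨⟨i', u'⟩, x'⟩
      have e1 := (HmovP (i' - i).val _ _).2 hR
      simp only [movP, ZMod.natCast_zmod_val, add_sub_cancel] at e1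
      have e2 := (HaddP i' (u' - ((g ^ (i' - i).val : (ZMod p)ˣ) : ZMod p) * u) _ _).2 e1
      simp only [addP, if_true, add_sub_cancel] at e2
      have e3 := (HaddR (x' - x) _ _).2 e2
      simpa only [addR, add_sub_cancel] using e3
  obtain ⟨⟨e, he⟩, heS⟩ := hS
  revert he heS
  refine Sym2.ind (fun a b => ?_) e
  intro he heS
  have hR : RR S a b := ⟨he, heS⟩
  have hab := RR_ne S hR
  rcases a with ⟨i, u⟩ | x
  · rcases b with ⟨j, v⟩ | y
    · by_cases hij : i = j
      · -- same block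
        subst hij
        have huv : v - u ≠ 0 := by
          intro h
          apply hab
          rw [sub_eq_zero] at h
          rw [h]
        refine h4.trans ?_
        have hc : p * Nat.lcm k (p - 1) = Fintype.card (ZMod p × Fin (Nat.lcm k (p - 1))) := by
          simp [Fintype.card_prod, ZMod.card]
        rw [hc]
        refine le_card_of_inj S (fun y : ZMod p × Fin (Nat.lcm k (p - 1)) =>
          ((Sum.inl (i + ((y.2 : ℕ) : ZMod k), y.1),
            Sum.inl (i + ((y.2 : ℕ) : ZMod k), y.1 + ((g ^ (y.2 : ℕ) : (ZMod p)ˣ) : ZMod p) * (v - u)))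
              : VV k p r × VV k p r)) ?_ ?_
        · rintro ⟨a, t⟩ ⟨a', t'⟩ h
          simp only [Prod.mk.injEq, Sum.inl.injEq, add_right_inj] at h
          obtain ⟨⟨ht, ha⟩, -, hb⟩ := h
          subst ha
          have hb' := add_left_cancel hb
          have hg' : g ^ (t : ℕ) = g ^ (t' : ℕ) := Units.ext (mul_right_cancel₀ huv hb')
          have m1 : (t : ℕ) ≡ t' [MOD k] := (ZMod.natCast_eq_natCast_iff _ _ _).1 ht
          have m2 : (t : ℕ) ≡ t' [MOD (p - 1)] := by
            have := pow_eq_pow_iff_modEq.1 hg'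
            rwa [hg] at this
          have m3 : (t : ℕ) ≡ t' [MOD (Nat.lcm k (p - 1))] :=
            Nat.mod_lcm m1 m2
          have m4 : (t : ℕ) = t' := Nat.ModEq.eq_of_lt_of_lt m3 t.2 t'.2
          rw [Fin.ext m4]
        · rintro ⟨u', t⟩
          have e1 := (HmovP (t : ℕ) _ _).2 hR
          simp only [movP] at e1
          have e2 := (HaddP (i + ((t : ℕ) : ZMod k))
            (u' - ((g ^ (t : ℕ) : (ZMod p)ˣ) : ZMod p) * u) _ _).2 e1
          simp only [addP, if_true, add_sub_cancel] at e2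
          have e3 : ((g ^ (t : ℕ) : (ZMod p)ˣ) : ZMod p) * v +
              (u' - ((g ^ (t : ℕ) : (ZMod p)ˣ) : ZMod p) * u) =
              u' + ((g ^ (t : ℕ) : (ZMod p)ˣ) : ZMod p) * (v - u) := by ring
          rw [e3] at e2
          exact e2
      · -- different blocks
        refine h3.trans ?_
        have hc : k * p * p = Fintype.card (ZMod k × ZMod p × ZMod p) := by
          simp [Fintype.card_prod, ZMod.card, mul_assoc]
        rw [hc]
        refine le_card_of_inj S (fun y : ZMod k × ZMod p × ZMod p =>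
          ((Sum.inl (i + y.1, y.2.1), Sum.inl (j + y.1, y.2.2)) : VV k p r × VV k p r)) ?_ ?_
        · rintro ⟨a, b, c⟩ ⟨a', b', c'⟩ h
          simp only [Prod.mk.injEq, Sum.inl.injEq, add_right_inj] at h
          obtain ⟨⟨ha, hb⟩, -, hc⟩ := h
          rw [ha, hb, hc]
        · rintro ⟨t, u', v'⟩
          have e1 := (HmovP t.val _ _).2 hR
          simp only [movP, ZMod.natCast_zmod_val] at e1
          have hne : j + t ≠ i + t := fun h => hij (add_right_cancel h).symm
          have e2 := (HaddP (i + t) (u' - ((g ^ t.val : (ZMod p)ˣ) : ZMod p) * u) _ _).2 e1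
          simp only [addP, if_true, add_sub_cancel, if_neg hne] at e2
          have e3 := (HaddP (j + t) (v' - ((g ^ t.val : (ZMod p)ˣ) : ZMod p) * v) _ _).2 e2
          simp only [addP, if_true, add_sub_cancel, if_neg hne.symm] at e3
          exact e3
    · exact mixed i u y hR
  · rcases b with ⟨j, v⟩ | y
    · exact mixed j v x (RR_symm S hR)
    · have hxy : y - x ≠ 0 := by
        intro h
        apply hab
        rw [sub_eq_zero] at h
        rw [h]
      refine h1.trans ?_
      have hc : r * q = Fintype.card (ZMod r × Fin q) := by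
        simp [Fintype.card_prod, ZMod.card]
      rw [hc]
      refine le_card_of_inj S (fun z : ZMod r × Fin q =>
        ((Sum.inr z.1, Sum.inr (z.1 + ((w ^ (z.2 : ℕ) : (ZMod r)ˣ) : ZMod r) * (y - x)))
            : VV k p r × VV k p r)) ?_ ?_
      · rintro ⟨a, t⟩ ⟨a', t'⟩ h
        simp only [Prod.mk.injEq, Sum.inr.injEq] at h
        obtain ⟨ha, hb⟩ := h
        subst ha
        have hb' := add_left_cancel hb
        have hg' : w ^ (t : ℕ) = w ^ (t' : ℕ) := Units.ext (mul_right_cancel₀ hxy hb')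
        have m2 : (t : ℕ) ≡ t' [MOD q] := by
          have := pow_eq_pow_iff_modEq.1 hg'
          rwa [hw] at this
        have m4 : (t : ℕ) = t' := Nat.ModEq.eq_of_lt_of_lt m2 t.2 t'.2
        rw [Fin.ext m4]
      · rintro ⟨x', t⟩
        have e1 := (HmulP (t : ℕ) _ _).2 hR
        rw [t10_mulr_pow_inr, t10_mulr_pow_inr] at e1
        have e2 := (HaddR (x' - ((w ^ (t : ℕ) : (ZMod r)ˣ) : ZMod r) * x) _ _).2 e1
        simp only [addR, add_sub_cancel] at e2
        have e3 : ((w ^ (t : ℕ) : (ZMod r)ˣ) : ZMod r) * y +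
            (x' - ((w ^ (t : ℕ) : (ZMod r)ˣ) : ZMod r) * x) =
            x' + ((w ^ (t : ℕ) : (ZMod r)ˣ) : ZMod r) * (y - x) := by ring
        rw [e3] at e2
        exact e2

end T10

end Pool.Agent.H98R2.Ev
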