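import Mathlib
import Pool.Agent.H98R2.Ev.Defs
import Pool.Agent.H98R2.Ev.T8
import Pool.Agent.H98R2.Ev.T9
import Pool.Agent.H98R2.Ev.T10

set_option autoImplicit false

namespace Pool.Agent.H98R2.Ev

open Finset

universe u

/- ===== T11 ===== core theorem on blocks -/
section T11

theorem ep_mul {V : Type} [DecidableEq V] (a b : Equiv.Perm V) : ep (a * b) = ep a * ep b := by
  apply Equiv.ext
  intro e
  apply Subtype.ext
  change Sym2.map (a * b) e.1 = Sym2.map a (Sym2.map b e.1)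
  rw [Sym2.map_map]
  rfl

theorem ep_one {V : Type} [DecidableEq V] : ep (1 : Equiv.Perm V) = 1 := by
  apply Equiv.ext
  intro e
  apply Subtype.ext
  change Sym2.map (fun x => x) e.1 = e.1
  rw [Sym2.map_id']
  rfl

theorem ep_pow {V : Type} [DecidableEq V] (a : Equiv.Perm V) (n : ℕ) :
    ep (a ^ n) = (ep a) ^ n := by
  induction n with
  | zero => rw [pow_zero, pow_zero, ep_one]
  | succ n ih => rw [pow_succ, pow_succ, ep_mul, ih]

theorem mp_mul {V : Type} [DecidableEq V] (a b : Equiv.Perm V) (S : Finset (EV V)) :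
    (S.map (ep b).toEmbedding).map (ep a).toEmbedding = S.map (ep (a * b)).toEmbedding := by
  rw [Finset.map_map, ep_mul]
  rfl

theorem mp_pow_fix {V : Type} [DecidableEq V] (a : Equiv.Perm V) (S : Finset (EV V))
    (h : S.map (ep a).toEmbedding = S) (n : ℕ) : S.map (ep (a ^ n)).toEmbedding = S := by
  induction n with
  | zero =>
    rw [pow_zero, ep_one]
    exact Finset.map_refl
  | succ n ih => rw [pow_succ, ← mp_mul, h, ih]

variable {k p r : ℕ} [NeZero k] [Fact p.Prime] [Fact r.Prime]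

theorem mulr_inv_mul (w : (ZMod r)ˣ) :
    (mulr w⁻¹ : Equiv.Perm (VV k p r)) * mulr w = 1 := by
  apply Equiv.ext
  intro x
  rcases x with x | x
  · rfl
  · change Sum.inr (((w⁻¹ : (ZMod r)ˣ) : ZMod r) * (((w : (ZMod r)ˣ) : ZMod r) * x)) = Sum.inr x
    rw [← mul_assoc, Units.inv_mul, one_mul]

theorem mulr_mul_inv (w : (ZMod r)ˣ) :
    (mulr w : Equiv.Perm (VV k p r)) * mulr w⁻¹ = 1 := by
  apply Equiv.ext
  intro x
  rcases x with x | x
  · rfl
  · change Sum.inr (((w : (ZMod r)ˣ) : ZMod r) * (((w⁻¹ : (ZMod r)ˣ) : ZMod r) * x)) = Sum.inr x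
    rw [← mul_assoc, Units.mul_inv, one_mul]

theorem not_ne_blocks (q : ℕ) [Fact q.Prime] (hqr : q ∣ r - 1) (hrp : p < r) (hrk : k < r)
    (D : Finset (EV (VV k p r)) → Prop) (hdown : ∀ S T, S ⊆ T → D T → D S) (h0 : D ∅)
    (hinv : ∀ (π : Equiv.Perm (VV k p r)) S, D S → D (S.map (ep π).toEmbedding))
    (N : ℕ) (h1 : N ≤ r * q) (h2 : N ≤ k * p * r) (h3 : N ≤ k * p * p)
    (h4 : N ≤ p * Nat.lcm k (p - 1)) (hsparse : ∀ S, D S → 2 * S.card < N) :
    ¬ NE univ D := by
  classical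
  intro hNE
  obtain ⟨g, hg⟩ : ∃ g : (ZMod p)ˣ, orderOf g = p - 1 := by
    obtain ⟨g, hg⟩ := IsCyclic.exists_generator (α := (ZMod p)ˣ)
    refine ⟨g, ?_⟩
    rw [orderOf_eq_card_of_forall_mem_zpowers hg, Nat.card_eq_fintype_card,
      ZMod.card_units_eq_totient, Nat.totient_prime Fact.out]
  obtain ⟨w, hw⟩ : ∃ w : (ZMod r)ˣ, orderOf w = q := by
    apply exists_prime_orderOf_dvd_card q
    rw [ZMod.card_units_eq_totient, Nat.totient_prime Fact.out]
    exact hqr
  have hinvr : ∀ T : Finset (EV (VV k p r)), ∀ i : ZMod k,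
      T.map (ep (tr i ^ ((g : ZMod p).val))).toEmbedding = T →
      T.map (ep (tr i)).toEmbedding = T := by
    intro T i hT
    have h5 := mp_pow_fix (tr i ^ ((g : ZMod p).val)) T hT (((g⁻¹ : (ZMod p)ˣ) : ZMod p).val)
    have h6 : (tr i ^ ((g : ZMod p).val)) ^ (((g⁻¹ : (ZMod p)ˣ) : ZMod p).val)
        = (tr i : Equiv.Perm (VV k p r)) := by
      rw [← pow_mul]
      have h7 : (g : ZMod p).val * ((g⁻¹ : (ZMod p)ˣ) : ZMod p).val ≡ 1 [MOD p] := by
        rw [← ZMod.natCast_eq_natCast_iff]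
        rw [Nat.cast_mul, ZMod.natCast_zmod_val, ZMod.natCast_zmod_val, Units.mul_inv,
          Nat.cast_one]
      have h8 := pow_eq_pow_of_modEq h7 (tr_pow (r := r) i)
      rw [h8, pow_one]
    rw [h6] at h5
    exact h5
  obtain ⟨S, hS1, hS2, hS3, hS4, hS5⟩ := topo_criterion D hdown hNE h0 p q
    (fun i : ZMod k => ep (tr i)) (ep (cyc g)) (ep (mulr w))
    (fun i j => by rw [← ep_mul, ← ep_mul, tr_comm])
    (fun i => by rw [← ep_pow, tr_pow, ep_one])
    (by rw [← ep_pow, mulr_pow w q (by rw [← hw]; exact pow_orderOf_eq_one w), ep_one])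
    (fun i S hS => hinv _ S hS) (fun S hS => hinv _ S hS) (fun S hS => hinv _ S hS)
    (by
      intro S hS i
      apply hinvr
      have h5 := cyc_tr (k := k) (r := r) g (i - 1)
      rw [sub_add_cancel] at h5
      rw [mp_mul, ← h5, ← mp_mul, hS (i - 1)])
    (by
      intro S hS hc
      refine ⟨fun i => ?_, ?_⟩
      · rw [mp_mul, ← mulr_tr, ← mp_mul, hS i]
      · obtain ⟨e, he⟩ := mulr_cyc (k := k) g w⁻¹ hrp hrk
        have h5 : (cyc g : Equiv.Perm (VV k p r)) * mulr w = mulr w * (cyc g) ^ e := by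
          have h6 : (mulr w : Equiv.Perm (VV k p r)) * (mulr w⁻¹ * cyc g) * mulr w
              = mulr w * (cyc g ^ e * mulr w⁻¹) * mulr w := by rw [he]
          rw [← mul_assoc, mulr_mul_inv, one_mul] at h6
          rw [h6, mul_assoc, mul_assoc, mulr_inv_mul, mul_one]
        rw [mp_mul, h5, ← mp_mul, mp_pow_fix _ _ hc])
  have h5 := orbit_large g hg w q hw S hS1 hS3 hS4 hS5 hrp hrk N h1 h2 h3 h4
  have h6 := hsparse S hS2
  omega
end T11

end Pool.Agent.H98R2.Ev
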