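import Mathlib
import Pool.Agent.H98R2.Ev.Defs

set_option autoImplicit false

/-! Stubs of the topological / group part. DO NOT IMPORT; copy the statement of your task. -/

namespace Pool.Agent.H98R2.Ev

open Finset

universe u

/- ===== T1 ===== (file Ev/T1.lean) -/
section T1
variable {X : Type u} [DecidableEq X] [PartialOrder X] [Fintype X] {F : Type} [CommRing F]

theorem Supp.bd {Q : Finset X} {c : Finset X → F} (h : Supp Q c) : Supp Q (bd F c) := sorry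

theorem bd_bd {Q : Finset X} {c : Finset X → F} (h : Supp Q c) : bd F (bd F c) = 0 := sorry

theorem bd_add (a b : Finset X → F) : bd F (a + b) = bd F a + bd F b := sorry

theorem bd_smul (t : F) (a : Finset X → F) : bd F (t • a) = t • bd F a := sorry

theorem acyc_cone (Q : Finset X) (a : X) (ha : a ∈ Q) (h : ∀ x ∈ Q, x ≤ a ∨ a ≤ x) :
    Acyc F Q := sorry

theorem acyc_union (Q₁ Q₂ : Finset X) (h : ∀ σ, Ch (Q₁ ∪ Q₂) σ → σ ⊆ Q₁ ∨ σ ⊆ Q₂)
    (h1 : Acyc F Q₁) (h2 : Acyc F Q₂) (h12 : Acyc F (Q₁ ∩ Q₂)) : Acyc F (Q₁ ∪ Q₂) := sorry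
end T1

/- ===== T2 ===== (file Ev/T2.lean; may import T1) -/
section T2
variable {E : Type u} [DecidableEq E] [Fintype E] {F : Type} [CommRing F]

theorem ne_acyc (A : Finset E) (D : Finset E → Prop)
    (hdown : ∀ S T, S ⊆ T → T ⊆ A → D T → D S) (h : NE A D) :
    (∀ S, S ⊆ A → ¬ D S) ∨ Acyc F (faces A D) := sorry
end T2

/- ===== T3 ===== (file Ev/T3.lean) -/
section T3

theorem ne_of_strategy (n : ℕ) (hn : 2 ≤ n) (P : SimpleGraph (Fin n) → Prop)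
    (s : Finset (Sym2 (Fin n)) → SimpleGraph (Fin n) → Sym2 (Fin n))
    (hs : ∀ (Q : Finset (Sym2 (Fin n))) (G H : SimpleGraph (Fin n)),
      (∀ e ∈ Q, (e ∈ G.edgeSet ↔ e ∈ H.edgeSet)) → s Q G = s Q H)
    (hbad : ¬ ∃ G H : SimpleGraph (Fin n),
      (∀ e ∈ (fun Q : Finset (Sym2 (Fin n)) => insert (s Q G) Q)^[n.choose 2 - 1]
        (∅ : Finset (Sym2 (Fin n))), (e ∈ G.edgeSet ↔ e ∈ H.edgeSet)) ∧ P G ∧ ¬ P H) :
    NE (univ : Finset (EV (Fin n))) (fun S => ¬ P (toG S)) := sorry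

end T3

/- ===== T4 ===== (file Ev/T4.lean) orbits of a permutation of prime order -/
section T4
variable {Y : Type u} [Fintype Y] [DecidableEq Y]

/-- `ker (1 - g) = fixed + im (1 + g + ... + g^{p-1})` -/
theorem inv_decomp (p : ℕ) [Fact p.Prime] (g : Equiv.Perm Y) (hg : g ^ p = 1)
    (c : Y → ZMod p) (hc : ∀ y, c (g y) = c y) :
    ∃ z : Y → ZMod p, (∀ y, z y ≠ 0 → c y ≠ 0) ∧
      ∀ y, g y ≠ y → c y = ∑ i ∈ range p, z ((g ^ i) y) := sorry

/-- `ker (1 + g + ... + g^{p-1}) = fixed + im (1 - g)` -/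
theorem norm_decomp (p : ℕ) [Fact p.Prime] (g : Equiv.Perm Y) (hg : g ^ p = 1)
    (c : Y → ZMod p) (hc : ∀ y, ∑ i ∈ range p, c ((g ^ i) y) = 0) :
    ∃ z : Y → ZMod p, (∀ y, z y ≠ 0 → ∃ i < p, c ((g ^ i) y) ≠ 0) ∧
      ∀ y, g y ≠ y → c y = z y - z (g y) := sorry
end T4

/- ===== T5 ===== (file Ev/T5.lean; may import T1, T4) Smith theory -/
section T5
variable {X : Type u} [DecidableEq X] [PartialOrder X] [Fintype X]

theorem chain_fixed (g : X ≃o X) (σ : Finset X) (h : IsChain (· ≤ ·) (σ : Set X))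
    (hg : σ.map g.toEmbedding = σ) : ∀ x ∈ σ, g x = x := sorry

theorem smith (p : ℕ) [Fact p.Prime] (Q : Finset X) (hQ : Acyc (ZMod p) Q) (g : X ≃o X)
    (hg : ∀ x ∈ Q, g x ∈ Q) (hp : ∀ x, g^[p] x = x) :
    Acyc (ZMod p) (fixIn Q g) := sorry
end T5

/- ===== T6 ===== (file Ev/T6.lean) Lefschetz -/
section T6
variable {X : Type u} [DecidableEq X] [PartialOrder X] [Fintype X]

open Classical in
theorem lefschetz (p : ℕ) [Fact p.Prime] (Q : Finset X) (hQ : Acyc (ZMod p) Q) (g : X ≃o X)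
    (hg : ∀ x ∈ Q, g x ∈ Q) :
    ∑ σ ∈ univ.filter (fun σ : Finset X => Ch (fixIn Q g) σ), (-1 : ℤ) ^ σ.card = 0 := sorry
end T6

/- ===== T7 ===== (file Ev/T7.lean) counting modulo q -/
section T7
variable {X : Type u} [DecidableEq X] [PartialOrder X] [Fintype X]

open Classical in
theorem fixed_count (q : ℕ) [Fact q.Prime] (Q : Finset X) (g : X ≃o X) (hg : ∀ x ∈ Q, g x ∈ Q)
    (hq : ∀ x, g^[q] x = x) (hfix : ∀ x ∈ Q, g x ≠ x) :
    (q : ℤ) ∣ (∑ σ ∈ univ.filter (fun σ : Finset X => Ch Q σ), (-1 : ℤ) ^ σ.card) - 1 := sorry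
end T7

/- ===== T8 ===== (file Ev/T8.lean; imports T1..T7) topological criterion -/
section T8
variable {E : Type u} [DecidableEq E] [Fintype E]

theorem topo_criterion (D : Finset E → Prop) (hdown : ∀ S T, S ⊆ T → D T → D S)
    (hne : NE univ D) (h0 : D ∅) {ι : Type} [Fintype ι] (p q : ℕ) [Fact p.Prime] [Fact q.Prime]
    (a : ι → Equiv.Perm E) (c h : Equiv.Perm E)
    (hcomm : ∀ i j, a i * a j = a j * a i) (hap : ∀ i, a i ^ p = 1) (hq : h ^ q = 1)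
    (hDa : ∀ i S, D S → D (S.map (a i).toEmbedding))
    (hDc : ∀ S, D S → D (S.map c.toEmbedding))
    (hDh : ∀ S, D S → D (S.map h.toEmbedding))
    (hca : ∀ S : Finset E, (∀ i, S.map (a i).toEmbedding = S) →
      ∀ i, (S.map c.toEmbedding).map (a i).toEmbedding = S.map c.toEmbedding)
    (hha : ∀ S : Finset E, (∀ i, S.map (a i).toEmbedding = S) → S.map c.toEmbedding = S →
      (∀ i, (S.map h.toEmbedding).map (a i).toEmbedding = S.map h.toEmbedding) ∧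
      (S.map h.toEmbedding).map c.toEmbedding = S.map h.toEmbedding) :
    ∃ S : Finset E, S.Nonempty ∧ D S ∧ (∀ i, S.map (a i).toEmbedding = S) ∧
      S.map c.toEmbedding = S ∧ S.map h.toEmbedding = S := sorry
end T8

/- ===== T9 ===== (file Ev/T9.lean) the group acting on the blocks -/
section T9
variable {k p r : ℕ} [NeZero k] [Fact p.Prime] [Fact r.Prime]

theorem tr_comm (i j : ZMod k) : (tr i : Equiv.Perm (VV k p r)) * tr j = tr j * tr i := sorry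

theorem tr_pow (i : ZMod k) : (tr i : Equiv.Perm (VV k p r)) ^ p = 1 := sorry

theorem cyc_tr (g : (ZMod p)ˣ) (i : ZMod k) :
    (cyc g : Equiv.Perm (VV k p r)) * tr i = (tr (i + 1)) ^ ((g : ZMod p).val) * cyc g := sorry

theorem mulr_tr (w : (ZMod r)ˣ) (i : ZMod k) :
    (mulr w : Equiv.Perm (VV k p r)) * tr i = tr i * mulr w := sorry

theorem mulr_pow (w : (ZMod r)ˣ) (q : ℕ) (hw : w ^ q = 1) :
    (mulr w : Equiv.Perm (VV k p r)) ^ q = 1 := sorry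

/-- conjugation by `mulr w` maps `cyc g` to a power of `cyc g` -/
theorem mulr_cyc (g : (ZMod p)ˣ) (w : (ZMod r)ˣ) (hrp : p < r) (hrk : k < r) :
    ∃ e : ℕ, (mulr w : Equiv.Perm (VV k p r)) * cyc g = (cyc g) ^ e * mulr w := sorry
end T9

/- ===== T10 ===== (file Ev/T10.lean) orbits are large -/
section T10
variable {k p r : ℕ} [NeZero k] [Fact p.Prime] [Fact r.Prime]

/-- directed relation -/
def RR {V : Type} [DecidableEq V] (S : Finset (EV V)) (a b : V) : Prop :=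
  ∃ h : ¬ (s(a, b)).IsDiag, (⟨s(a, b), h⟩ : EV V) ∈ S

theorem RR_perm {V : Type} [DecidableEq V] (S : Finset (EV V)) (π : Equiv.Perm V)
    (h : S.map (ep π).toEmbedding = S) (a b : V) : RR S (π a) (π b) ↔ RR S a b := sorry

open Classical in
theorem card_RR {V : Type} [DecidableEq V] [Fintype V] (S : Finset (EV V)) :
    (univ.filter (fun x : V × V => RR S x.1 x.2)).card = 2 * S.card := sorry

theorem orbit_large (g : (ZMod p)ˣ) (hg : orderOf g = p - 1) (w : (ZMod r)ˣ) (q : ℕ)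
    (hw : orderOf w = q) (S : Finset (EV (VV k p r))) (hS : S.Nonempty)
    (htr : ∀ i, S.map (ep (tr i)).toEmbedding = S) (hcyc : S.map (ep (cyc g)).toEmbedding = S)
    (hmul : S.map (ep (mulr w)).toEmbedding = S) (hrp : p < r) (hrk : k < r) (N : ℕ)
    (h1 : N ≤ r * q) (h2 : N ≤ k * p * r) (h3 : N ≤ k * p * p)
    (h4 : N ≤ p * Nat.lcm k (p - 1)) : N ≤ 2 * S.card := sorry
end T10

/- ===== T11 ===== (file Ev/T11.lean; imports T8, T9, T10) core theorem on blocks -/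
section T11
variable {k p r : ℕ} [NeZero k] [Fact p.Prime] [Fact r.Prime]

theorem not_ne_blocks (q : ℕ) [Fact q.Prime] (hqr : q ∣ r - 1) (hrp : p < r) (hrk : k < r)
    (D : Finset (EV (VV k p r)) → Prop) (hdown : ∀ S T, S ⊆ T → D T → D S) (h0 : D ∅)
    (hinv : ∀ (π : Equiv.Perm (VV k p r)) S, D S → D (S.map (ep π).toEmbedding))
    (N : ℕ) (h1 : N ≤ r * q) (h2 : N ≤ k * p * r) (h3 : N ≤ k * p * p)
    (h4 : N ≤ p * Nat.lcm k (p - 1)) (hsparse : ∀ S, D S → 2 * S.card < N) :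
    ¬ NE univ D := sorry
end T11

/- ===== T12 ===== (file Ev/T12.lean; imports T3, T11) from blocks to `Fin n` and to strategies -/
section T12

theorem evasive_core (n k p r q : ℕ) (hp : p.Prime) (hr : r.Prime) (hq : q.Prime) (hk : 1 ≤ k)
    (hn : n = k * p + r) (hqr : q ∣ r - 1) (hrp : p < r) (hrk : k < r)
    (N : ℕ) (h1 : N ≤ r * q) (h2 : N ≤ k * p * r) (h3 : N ≤ k * p * p)
    (h4 : N ≤ p * Nat.lcm k (p - 1))
    (P : SimpleGraph (Fin n) → Prop) (hmono : ∀ G H : SimpleGraph (Fin n), G ≤ H → P G → P H)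
    (hiso : ∀ (σ : Fin n ≃ Fin n) (G : SimpleGraph (Fin n)), P G → P (G.map σ.toEmbedding))
    (hne : ∃ G : SimpleGraph (Fin n), ¬ P G)
    (hsparse : ∀ G : SimpleGraph (Fin n), N ≤ 2 * G.edgeSet.ncard → P G)
    (s : Finset (Sym2 (Fin n)) → SimpleGraph (Fin n) → Sym2 (Fin n))
    (hs : ∀ (Q : Finset (Sym2 (Fin n))) (G H : SimpleGraph (Fin n)),
      (∀ e ∈ Q, (e ∈ G.edgeSet ↔ e ∈ H.edgeSet)) → s Q G = s Q H) :
    ∃ G H : SimpleGraph (Fin n),
      (∀ e ∈ (fun Q : Finset (Sym2 (Fin n)) => insert (s Q G) Q)^[n.choose 2 - 1]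
        (∅ : Finset (Sym2 (Fin n))), (e ∈ G.edgeSet ↔ e ∈ H.edgeSet)) ∧ P G ∧ ¬ P H := sorry

/-- duality: `P ↦ (G ↦ ¬ P Gᶜ)` -/
theorem dual_strategy (n : ℕ) (P : SimpleGraph (Fin n) → Prop)
    (h : ∀ s : Finset (Sym2 (Fin n)) → SimpleGraph (Fin n) → Sym2 (Fin n),
      (∀ (Q : Finset (Sym2 (Fin n))) (G H : SimpleGraph (Fin n)),
        (∀ e ∈ Q, (e ∈ G.edgeSet ↔ e ∈ H.edgeSet)) → s Q G = s Q H) →
      ∃ G H : SimpleGraph (Fin n),
        (∀ e ∈ (fun Q : Finset (Sym2 (Fin n)) => insert (s Q G) Q)^[n.choose 2 - 1]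
          (∅ : Finset (Sym2 (Fin n))), (e ∈ G.edgeSet ↔ e ∈ H.edgeSet)) ∧
          (¬ P Gᶜ) ∧ ¬ (¬ P Hᶜ))
    (s : Finset (Sym2 (Fin n)) → SimpleGraph (Fin n) → Sym2 (Fin n))
    (hs : ∀ (Q : Finset (Sym2 (Fin n))) (G H : SimpleGraph (Fin n)),
      (∀ e ∈ Q, (e ∈ G.edgeSet ↔ e ∈ H.edgeSet)) → s Q G = s Q H) :
    ∃ G H : SimpleGraph (Fin n),
      (∀ e ∈ (fun Q : Finset (Sym2 (Fin n)) => insert (s Q G) Q)^[n.choose 2 - 1]
        (∅ : Finset (Sym2 (Fin n))), (e ∈ G.edgeSet ↔ e ∈ H.edgeSet)) ∧ P G ∧ ¬ P H := sorry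
end T12

end Pool.Agent.H98R2.Ev
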