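import Mathlib
import Pool.Agent.H98R2.Ev.Defs

set_option autoImplicit false

namespace Pool.Agent.H98R2.Ev

open Finset

section
variable {r : ℕ} [Fact r.Prime]

theorem cay_sum_shift (f : ZMod r → ℤ) (a : ZMod r) : ∑ x, f (x + a) = ∑ x, f x :=
  Equiv.sum_comp (Equiv.addRight a) f

theorem cay_sum_dil (f : ZMod r → ℤ) (x d : ZMod r) (hd : d ≠ 0) :
    ∑ c : ZMod r, f (x + c * d) = ∑ x, f x := by
  have h1 : ∑ c : ZMod r, f (x + c * d) = ∑ c : ZMod r, f (x + c) :=
    Equiv.sum_comp (Equiv.mulRight₀ d hd) (fun c => f (x + c))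
  rw [h1]
  have h2 := cay_sum_shift f x
  rw [← h2]
  exact Finset.sum_congr rfl fun c _ => by rw [add_comm]

/-- sum over non-zero dilations of the correlation -/
theorem cay_corr (I : Finset (ZMod r)) (d : ZMod r) (hd : d ≠ 0) :
    ∑ c ∈ univ.erase (0 : ZMod r), ∑ x : ZMod r,
      (if x ∈ I then (1 : ℤ) else 0) * (if x + c * d ∈ I then (1 : ℤ) else 0)
      = (I.card : ℤ) ^ 2 - I.card := by
  have hm : ∑ x : ZMod r, (if x ∈ I then (1 : ℤ) else 0) = I.card := by simp
  have h1 : ∑ c : ZMod r, ∑ x : ZMod r,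
      (if x ∈ I then (1 : ℤ) else 0) * (if x + c * d ∈ I then (1 : ℤ) else 0)
      = (I.card : ℤ) ^ 2 := by
    rw [Finset.sum_comm]
    have : ∀ x : ZMod r, ∑ c : ZMod r,
        (if x ∈ I then (1 : ℤ) else 0) * (if x + c * d ∈ I then (1 : ℤ) else 0) =
        (if x ∈ I then (1 : ℤ) else 0) * I.card := by
      intro x
      rw [← Finset.mul_sum, cay_sum_dil (fun y => if y ∈ I then (1 : ℤ) else 0) x d hd, hm]
    rw [Finset.sum_congr rfl fun x _ => this x, ← Finset.sum_mul, hm, sq]
  have h2 : ∑ x : ZMod r,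
      (if x ∈ I then (1 : ℤ) else 0) * (if x + 0 * d ∈ I then (1 : ℤ) else 0) = I.card := by
    simp
  rw [← Finset.sum_erase_add _ _ (mem_univ (0 : ZMod r)), h2] at h1
  linarith

/-- Pairs of sets without edges in Cayley graphs of `ZMod r` with respect to a coset of a
multiplicative subgroup: elementary second moment over all dilations. -/
theorem cayley_pair (w : (ZMod r)ˣ) (δ : ZMod r) (hδ : δ ≠ 0) (J I : Finset (ZMod r))
    (hI : ∀ x ∈ J, ∀ j : ℕ, x + ((w ^ j : (ZMod r)ˣ) : ZMod r) * δ ∉ I) :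
    J.card * I.card * orderOf w ^ 2 ≤ r ^ 3 := by
  set h := orderOf w with hh
  have hr : r.Prime := Fact.out
  have hr0 : 0 < r := hr.pos
  -- the connection set
  set H : Finset (ZMod r) := (range h).image (fun j => ((w ^ j : (ZMod r)ˣ) : ZMod r) * δ) with hH
  have hHc : H.card = h := by
    rw [hH, card_image_of_injOn, card_range]
    intro a ha b hb hab
    have h1 : ((w ^ a : (ZMod r)ˣ) : ZMod r) = ((w ^ b : (ZMod r)ˣ) : ZMod r) :=
      mul_right_cancel₀ hδ hab
    have h2 : w ^ a = w ^ b := Units.ext h1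
    have ha' : a < orderOf w := by simpa using ha
    have hb' : b < orderOf w := by simpa using hb
    exact pow_injOn_Iio_orderOf ha' hb' h2
  set C : Finset (ZMod r) := (range h).image (fun j => ((w ^ j : (ZMod r)ˣ) : ZMod r)) with hC
  have hCc : C.card = h := by
    rw [hC, card_image_of_injOn, card_range]
    intro a ha b hb hab
    have h2 : w ^ a = w ^ b := Units.ext hab
    have ha' : a < orderOf w := by simpa using ha
    have hb' : b < orderOf w := by simpa using hb
    exact pow_injOn_Iio_orderOf ha' hb' h2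
  have hC0 : C ⊆ univ.erase (0 : ZMod r) := by
    intro c hc
    rw [hC, mem_image] at hc
    obtain ⟨j, _, rfl⟩ := hc
    exact mem_erase.2 ⟨Units.ne_zero _, mem_univ _⟩
  set f : ZMod r → ℤ := fun x => if x ∈ I then (1 : ℤ) else 0 with hf
  set m : ℤ := (I.card : ℤ) with hm
  have hfm : ∑ x : ZMod r, f x = m := by simp [hf, hm]
  set A : ZMod r → ZMod r → ℤ := fun c x => ∑ u ∈ H, f (x + c * u) with hA
  have hrcard : (univ : Finset (ZMod r)).card = r := by rw [card_univ, ZMod.card]
  -- first moment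
  have hA1 : ∀ c, ∑ x, A c x = h * m := by
    intro c
    simp only [hA]
    rw [Finset.sum_comm, Finset.sum_congr rfl fun u _ => cay_sum_shift f (c * u)]
    rw [Finset.sum_const, hHc, hfm, nsmul_eq_mul]
  -- second moment
  have hA2 : ∑ c ∈ univ.erase (0 : ZMod r), ∑ x, (A c x) ^ 2 =
      (r - 1) * (h * m) + h * (h - 1) * (m ^ 2 - m) := by
    have e1 : ∀ c x, (A c x) ^ 2 = ∑ u ∈ H, ∑ v ∈ H, f (x + c * u) * f (x + c * v) := by
      intro c x
      simp only [hA]
      rw [sq, Finset.sum_mul_sum]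
    have e2 : ∀ c, ∑ x, (A c x) ^ 2 = ∑ u ∈ H, ∑ v ∈ H, ∑ x, f x * f (x + c * (v - u)) := by
      intro c
      rw [Finset.sum_congr rfl fun x _ => e1 c x, Finset.sum_comm]
      refine Finset.sum_congr rfl fun u _ => ?_
      rw [Finset.sum_comm]
      refine Finset.sum_congr rfl fun v _ => ?_
      rw [← cay_sum_shift (fun x => f x * f (x + c * (v - u))) (c * u)]
      refine Finset.sum_congr rfl fun x _ => ?_
      congr 2
      ring
    rw [Finset.sum_congr rfl fun c _ => e2 c, Finset.sum_comm]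
    have e3 : ∀ u ∈ H, ∑ c ∈ univ.erase (0 : ZMod r), ∑ v ∈ H, ∑ x, f x * f (x + c * (v - u))
        = (r - 1) * m + (h - 1) * (m ^ 2 - m) := by
      intro u hu
      rw [Finset.sum_comm, ← Finset.add_sum_erase _ _ hu]
      congr 1
      · have : ∀ c ∈ univ.erase (0 : ZMod r), ∑ x, f x * f (x + c * (u - u)) = m := by
          intro c _
          rw [← hfm]
          refine Finset.sum_congr rfl fun x _ => ?_
          rw [sub_self, mul_zero, add_zero]
          simp only [hf]
          split_ifs <;> simp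
        rw [Finset.sum_congr rfl this, Finset.sum_const, card_erase_of_mem (mem_univ _), hrcard,
          nsmul_eq_mul, Nat.cast_sub hr0]
        simp
      · have : ∀ v ∈ H.erase u, ∑ c ∈ univ.erase (0 : ZMod r), ∑ x, f x * f (x + c * (v - u))
            = m ^ 2 - m := by
          intro v hv
          have hvu : v - u ≠ 0 := sub_ne_zero.2 (ne_of_mem_erase hv)
          exact cay_corr I (v - u) hvu
        have hh1 : 1 ≤ h := by rw [← hHc]; exact card_pos.2 ⟨u, hu⟩
        rw [Finset.sum_congr rfl this, Finset.sum_const, card_erase_of_mem hu, hHc,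
          nsmul_eq_mul, Nat.cast_sub hh1]
        simp
    rw [Finset.sum_congr rfl e3, Finset.sum_const, hHc, nsmul_eq_mul]
    ring
  -- variance
  have hV : ∑ c ∈ univ.erase (0 : ZMod r), ∑ x, (r * A c x - h * m) ^ 2 =
      (h * m) * (r * (r - h) * (r - m)) := by
    have e1 : ∀ c, ∑ x, (r * A c x - h * m) ^ 2 =
        r ^ 2 * ∑ x, (A c x) ^ 2 - r * (h * m) ^ 2 := by
      intro c
      have : ∀ x, (r * A c x - h * m) ^ 2 =
          r ^ 2 * (A c x) ^ 2 - 2 * r * (h * m) * A c x + (h * m) ^ 2 := by intro x; ring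
      rw [Finset.sum_congr rfl fun x _ => this x, Finset.sum_add_distrib, Finset.sum_sub_distrib,
        ← Finset.mul_sum, ← Finset.mul_sum, hA1 c, Finset.sum_const, hrcard, nsmul_eq_mul]
      ring
    rw [Finset.sum_congr rfl fun c _ => e1 c, Finset.sum_sub_distrib, ← Finset.mul_sum, hA2,
      Finset.sum_const, card_erase_of_mem (mem_univ _), hrcard, nsmul_eq_mul, Nat.cast_sub hr0]
    push_cast
    ring
  -- lower bound
  have hlow : (h : ℤ) * ((J.card : ℤ) * (h * m) ^ 2) ≤
      ∑ c ∈ univ.erase (0 : ZMod r), ∑ x, (r * A c x - h * m) ^ 2 := by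
    calc (h : ℤ) * ((J.card : ℤ) * (h * m) ^ 2) = ∑ c ∈ C, ∑ x ∈ J, (h * m) ^ 2 := by
          rw [Finset.sum_const, Finset.sum_const, hCc, nsmul_eq_mul, nsmul_eq_mul]
      _ = ∑ c ∈ C, ∑ x ∈ J, (r * A c x - h * m) ^ 2 := by
          refine Finset.sum_congr rfl fun c hc => Finset.sum_congr rfl fun x hx => ?_
          have : A c x = 0 := by
            simp only [hA]
            refine Finset.sum_eq_zero fun u hu => ?_
            rw [hC, mem_image] at hc
            obtain ⟨j, _, rfl⟩ := hc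
            rw [hH, mem_image] at hu
            obtain ⟨i, _, rfl⟩ := hu
            simp only [hf]
            rw [if_neg]
            have := hI x hx (j + i)
            rw [pow_add, Units.val_mul, mul_assoc] at this
            exact this
          rw [this]; ring
      _ ≤ ∑ c ∈ C, ∑ x, (r * A c x - h * m) ^ 2 := by
          refine Finset.sum_le_sum fun c _ => ?_
          exact Finset.sum_le_sum_of_subset_of_nonneg (subset_univ _) fun _ _ _ => sq_nonneg _
      _ ≤ _ := Finset.sum_le_sum_of_subset_of_nonneg hC0 fun _ _ _ =>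
          Finset.sum_nonneg fun _ _ => sq_nonneg _
  have hm0 : 0 ≤ m := by positivity
  have hh0 : (0 : ℤ) ≤ h := by positivity
  have hmr : m ≤ r := by
    have : I.card ≤ r := (card_le_univ I).trans_eq (ZMod.card r)
    rw [hm]; exact_mod_cast this
  have hhr : (h : ℤ) ≤ r := by
    have : h ≤ r := by
      have := (card_le_univ H).trans_eq (ZMod.card r)
      rwa [hHc] at this
    exact_mod_cast this
  have hr0' : (0 : ℤ) < r := by exact_mod_cast hr0
  have hup : (h * m) * (r * (r - h) * (r - m)) ≤ (h * m) * (r : ℤ) ^ 3 := by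
    apply mul_le_mul_of_nonneg_left _ (by positivity)
    have h1 : (r : ℤ) - h ≤ r := by linarith
    have h2 : (r : ℤ) - m ≤ r := by linarith
    have h3 : (0 : ℤ) ≤ r - m := by linarith
    have h4 : (0 : ℤ) ≤ r - h := by linarith
    calc (r : ℤ) * (r - h) * (r - m) ≤ r * r * r := by gcongr
      _ = (r : ℤ) ^ 3 := by ring
  have hfin : (h * m) * ((J.card : ℤ) * m * h ^ 2) ≤ (h * m) * (r : ℤ) ^ 3 := by
    calc (h * m) * ((J.card : ℤ) * m * h ^ 2) = (h : ℤ) * ((J.card : ℤ) * (h * m) ^ 2) := by ring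
      _ ≤ _ := hlow
      _ = _ := hV
      _ ≤ _ := hup
  have hgoal : (J.card : ℤ) * m * h ^ 2 ≤ (r : ℤ) ^ 3 := by
    rcases (mul_nonneg hh0 hm0).eq_or_lt with h0 | h0
    · have : (J.card : ℤ) * m * h ^ 2 = (J.card : ℤ) * h * (h * m) := by ring
      rw [this, ← h0, mul_zero]; positivity
    · exact le_of_mul_le_mul_left hfin h0
  rw [hm] at hgoal
  exact_mod_cast hgoal

end

end Pool.Agent.H98R2.Ev
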