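import Mathlib
import Pool.Agent.H98R2.Ev.T3
import Pool.Agent.H98R2.Ev.T11
import Pool.Agent.H98R2.Ev.T12a

set_option autoImplicit false

namespace Pool.Agent.H98R2.Ev

open Finset

theorem evasive_core (n k p r q : ℕ) (hp : p.Prime) (hr : r.Prime) (hq : q.Prime) (hk : 1 ≤ k)
    (hn : n = k * p + r) (hqr : q ∣ r - 1) (hrp : p < r) (hrk : k < r)
    (N : ℕ) (h1 : N ≤ r * q) (h2 : N ≤ k * p * r) (h3 : N ≤ k * p * p)
    (h4 : N ≤ p * Nat.lcm k (p - 1))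
    (P : SimpleGraph (Fin n) → Prop) (hmono : ∀ G H : SimpleGraph (Fin n), G ≤ H → P G → P H)
    (hiso : ∀ (σ : Fin n ≃ Fin n) (G : SimpleGraph (Fin n)), P G → P (G.map σ.toEmbedding))
    (hne : ∃ G : SimpleGraph (Fin n), ¬ P G)
    (hsparse : ∀ G : SimpleGraph (Fin n), N ≤ 2 * G.edgeSet.ncard → P G)
    (s : Finset (Sym2 (Fin n)) → SimpleGraph (Fin n) → Sym2 (Fin n))
    (hs : ∀ (Q : Finset (Sym2 (Fin n))) (G H : SimpleGraph (Fin n)),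
      (∀ e ∈ Q, (e ∈ G.edgeSet ↔ e ∈ H.edgeSet)) → s Q G = s Q H) :
    ∃ G H : SimpleGraph (Fin n),
      (∀ e ∈ (fun Q : Finset (Sym2 (Fin n)) => insert (s Q G) Q)^[n.choose 2 - 1]
        (∅ : Finset (Sym2 (Fin n))), (e ∈ G.edgeSet ↔ e ∈ H.edgeSet)) ∧ P G ∧ ¬ P H :=
  evasive_core_of ne_of_strategy
    (fun q _ hqr hrp hrk D hdown h0 hinv N h1 h2 h3 h4 hsp =>
      not_ne_blocks q hqr hrp hrk D hdown h0 hinv N h1 h2 h3 h4 hsp)
    n k p r q hp hr hq hk hn hqr hrp hrk N h1 h2 h3 h4 P hmono hiso hne hsparse s hs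

end Pool.Agent.H98R2.Ev
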