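import Mathlib
import Pool.Agent.H98R2.Ev.Defs
import Pool.Agent.H98R2.Ev.T14
import Pool.Agent.H98R2.Ev.Cay

set_option autoImplicit false

/-! T16: graphs without large complete bipartite subgraphs and with many empty pairs (outside a
small set `X` of vertices) contain none of the four types of orbits. -/

namespace Pool.Agent.H98R2.Ev

open Finset

/-- `G - X` contains no complete bipartite graph `K_{t,t}` -/
def NoBiclique {V : Type} (G : SimpleGraph V) (X : Finset V) (t : ℕ) : Prop :=
  ∀ A B : Finset V, Disjoint A X → Disjoint B X → A.card = t → B.card = t →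
    ∃ a ∈ A, ∃ b ∈ B, ¬ G.Adj a b

/-- Every set `U` of at least `t` vertices of `G - X` contains two (not necessarily distinct) sets
of at least `lam * |U|` vertices with no edge between them. -/
def EmptyPairs {V : Type} (G : SimpleGraph V) (X : Finset V) (t : ℕ) (lam : ℝ) : Prop :=
  ∀ U : Finset V, Disjoint U X → t ≤ U.card → ∃ A B : Finset V, A ⊆ U ∧ B ⊆ U ∧
    lam * U.card ≤ A.card ∧ lam * U.card ≤ B.card ∧ ∀ a ∈ A, ∀ b ∈ B, ¬ G.Adj a b

open Classical in
theorem bicl_false {V : Type} (G : SimpleGraph V) (X : Finset V) {α β : Type} [Fintype α]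
    [Fintype β] (F : α → V) (F' : β → V) (hF : Function.Injective F)
    (hF' : Function.Injective F') (hadj : ∀ a b, G.Adj (F a) (F' b)) (t : ℕ)
    (h1 : t + (univ.filter (fun a => F a ∈ X)).card ≤ Fintype.card α)
    (h2 : t + (univ.filter (fun b => F' b ∈ X)).card ≤ Fintype.card β)
    (hG : NoBiclique G X t) : False := by
  have key : ∀ {γ : Type} [Fintype γ] (f : γ → V), Function.Injective f →
      t + (univ.filter (fun a => f a ∈ X)).card ≤ Fintype.card γ →
      ∃ A : Finset V, Disjoint A X ∧ A.card = t ∧ ∀ v ∈ A, ∃ c, f c = v := by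
    intro γ _ f hf h
    have h3 : t ≤ (univ.filter (fun a => ¬ f a ∈ X)).card := by
      have := Finset.card_filter_add_card_filter_not (s := (univ : Finset γ)) (fun a => f a ∈ X)
      rw [Finset.card_univ] at this
      omega
    obtain ⟨A, hA, hAc⟩ := Finset.exists_subset_card_eq h3
    refine ⟨A.map ⟨f, hf⟩, ?_, by rw [card_map, hAc], ?_⟩
    · rw [Finset.disjoint_left]
      intro v hv
      obtain ⟨a, ha, rfl⟩ := mem_map.1 hv
      exact (mem_filter.1 (hA ha)).2
    · intro v hv
      obtain ⟨a, _, rfl⟩ := mem_map.1 hv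
      exact ⟨a, rfl⟩
  obtain ⟨A, hA1, hA2, hA3⟩ := key F hF h1
  obtain ⟨B, hB1, hB2, hB3⟩ := key F' hF' h2
  obtain ⟨a, ha, b, hb, hab⟩ := hG A B hA1 hB1 hA2 hB2
  obtain ⟨c, rfl⟩ := hA3 a ha
  obtain ⟨d, rfl⟩ := hB3 b hb
  exact hab (hadj c d)

open Classical in
theorem star_cayley {V : Type} (G : SimpleGraph V) (X : Finset V) {m : ℕ} [Fact m.Prime]
    (F : ZMod m → V) (hF : Function.Injective F) (w : (ZMod m)ˣ) (δ : ZMod m) (hδ : δ ≠ 0)
    (hadj : ∀ (x : ZMod m) (j : ℕ), G.Adj (F x) (F (x + ((w ^ j : (ZMod m)ˣ) : ZMod m) * δ)))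
    (t : ℕ) (ht : t + (univ.filter (fun a => F a ∈ X)).card ≤ m)
    (hX : 2 * (univ.filter (fun a => F a ∈ X)).card ≤ m)
    (lam : ℝ) (hlam : 0 < lam) (hG : EmptyPairs G X t lam) :
    lam ^ 2 * (orderOf w : ℝ) ^ 2 ≤ 4 * m := by
  have hm : m.Prime := Fact.out
  have hm0 : (0 : ℝ) < m := by exact_mod_cast hm.pos
  set xm := (univ.filter (fun a => F a ∈ X)).card with hxm
  set W : Finset (ZMod m) := univ.filter (fun a => ¬ F a ∈ X) with hW
  set U : Finset V := W.map ⟨F, hF⟩ with hU
  have hWc : xm + W.card = m := by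
    have := Finset.card_filter_add_card_filter_not (s := (univ : Finset (ZMod m))) (fun a => F a ∈ X)
    rw [Finset.card_univ, ZMod.card] at this
    rw [hxm, hW]; convert this
  have hUc : U.card = W.card := by rw [hU, card_map]
  have hUX : Disjoint U X := by
    rw [Finset.disjoint_left]
    intro v hv
    obtain ⟨a, ha, rfl⟩ := mem_map.1 hv
    exact (mem_filter.1 ha).2
  obtain ⟨A, B, hA, hB, hAc, hBc, hAB⟩ := hG U hUX (by omega)
  have hpre : ∀ C : Finset V, C ⊆ U → (univ.filter (fun x => F x ∈ C)).card = C.card := by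
    intro C hC
    have : (univ.filter (fun x => F x ∈ C)).map ⟨F, hF⟩ = C := by
      ext v
      simp only [mem_map, mem_filter, mem_univ, true_and, Function.Embedding.coeFn_mk]
      constructor
      · rintro ⟨x, hx, rfl⟩; exact hx
      · intro hv
        obtain ⟨x, _, hx⟩ := mem_map.1 (hC hv)
        exact ⟨x, by simpa [← hx] using hv, hx⟩
    conv_rhs => rw [← this, card_map]
  have h1 := cayley_pair w δ hδ (univ.filter (fun x => F x ∈ A)) (univ.filter (fun x => F x ∈ B)) (by
    intro x hx j hxj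
    exact hAB _ (mem_filter.1 hx).2 _ (mem_filter.1 hxj).2 (hadj x j))
  rw [hpre A hA, hpre B hB] at h1
  have h2 : (A.card : ℝ) * B.card * (orderOf w : ℝ) ^ 2 ≤ (m : ℝ) ^ 3 := by exact_mod_cast h1
  have hU2 : (m : ℝ) / 2 ≤ U.card := by
    have : m ≤ 2 * U.card := by omega
    have : (m : ℝ) ≤ 2 * U.card := by exact_mod_cast this
    linarith
  have hA' : lam * (m / 2) ≤ A.card := (mul_le_mul_of_nonneg_left hU2 hlam.le).trans hAc
  have hB' : lam * (m / 2) ≤ B.card := (mul_le_mul_of_nonneg_left hU2 hlam.le).trans hBc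
  have h3 : (lam * (m / 2)) * (lam * (m / 2)) ≤ (A.card : ℝ) * B.card :=
    mul_le_mul hA' hB' (by positivity) (by positivity)
  have h4 : (lam * (m / 2)) * (lam * (m / 2)) * (orderOf w : ℝ) ^ 2 ≤ (m : ℝ) ^ 3 :=
    (mul_le_mul_of_nonneg_right h3 (by positivity)).trans h2
  have h5 : (m : ℝ) ^ 2 * (lam ^ 2 * (orderOf w : ℝ) ^ 2) ≤ (m : ℝ) ^ 2 * (4 * m) := by
    calc (m : ℝ) ^ 2 * (lam ^ 2 * (orderOf w : ℝ) ^ 2) =
        4 * ((lam * (m / 2)) * (lam * (m / 2)) * (orderOf w : ℝ) ^ 2) := by ring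
      _ ≤ 4 * (m : ℝ) ^ 3 := by linarith
      _ = (m : ℝ) ^ 2 * (4 * m) := by ring
  exact le_of_mul_le_mul_left h5 (by positivity)

theorem no_type {k p r : ℕ} [NeZero k] [Fact p.Prime] [Fact r.Prime] {V : Type}
    (G : SimpleGraph V) (X : Finset V) (e : VV k p r → V) (he : Function.Injective e)
    (g : (ZMod p)ˣ) (w : (ZMod r)ˣ) (t : ℕ) (lam : ℝ) (hlam : 0 < lam)
    (hA : t * k + 2 * X.card ≤ k * p) (hB : t + X.card ≤ r) (hB2 : 2 * X.card ≤ r)
    (h1 : 4 * (r : ℝ) < lam ^ 2 * (orderOf w : ℝ) ^ 2)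
    (h2 : 4 * (p : ℝ) < lam ^ 2 * (orderOf (g ^ k) : ℝ) ^ 2)
    (hG1 : NoBiclique G X t) (hG2 : EmptyPairs G X t lam) :
    ¬ HasType g w (fun a b => G.Adj (e a) (e b)) := by
  classical
  have hk : 0 < k := Nat.pos_of_ne_zero (NeZero.ne k)
  have hinl : ∀ i : ZMod k, Function.Injective (fun u : ZMod p => e (Sum.inl (i, u))) := by
    intro i u v huv
    have := he huv
    simpa using this
  have hinr : Function.Injective (fun x : ZMod r => e (Sum.inr x)) := by
    intro u v huv
    have := he huv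
    simpa using this
  have hinl' : Function.Injective (fun z : ZMod k × ZMod p => e (Sum.inl z)) := by
    intro u v huv
    have := he huv
    simpa using this
  have hcardX : ∀ {γ : Type} [Fintype γ] (f : γ → V), Function.Injective f →
      (univ.filter (fun a => f a ∈ X)).card ≤ X.card := by
    intro γ _ f hf
    refine Finset.card_le_card_of_injOn f ?_ (hf.injOn)
    intro a ha
    exact (mem_filter.1 ha).2
  set x : ZMod k → ℕ := fun i => (univ.filter (fun u : ZMod p => e (Sum.inl (i, u)) ∈ X)).card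
    with hx
  have hsum : ∑ i, x i ≤ X.card := by
    refine le_trans (le_of_eq ?_) (hcardX (fun z : ZMod k × ZMod p => e (Sum.inl z)) hinl')
    simp only [hx, Finset.card_filter]
    rw [Fintype.sum_prod_type]
  rintro (⟨δ, hδ, h⟩ | h | ⟨j, hj, h⟩ | ⟨δ, hδ, h⟩)
  · have hc := hcardX (fun x : ZMod r => e (Sum.inr x)) hinr
    have := star_cayley G X (fun x : ZMod r => e (Sum.inr x)) hinr w δ hδ h t
      (by omega) (by omega) lam hlam hG2
    linarith
  · have hc := hcardX (fun x : ZMod r => e (Sum.inr x)) hinr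
    have hc' := hcardX (fun z : ZMod k × ZMod p => e (Sum.inl z)) hinl'
    refine bicl_false G X (fun z : ZMod k × ZMod p => e (Sum.inl z))
      (fun x : ZMod r => e (Sum.inr x)) hinl' hinr (fun u x => h _ x) t ?_ ?_ hG1
    · rw [Fintype.card_prod, ZMod.card, ZMod.card]
      have : t ≤ t * k := Nat.le_mul_of_pos_right t hk
      omega
    · rw [ZMod.card]
      omega
  · -- choose a good pair of blocks
    obtain ⟨i, hi⟩ : ∃ i : ZMod k, k * (x i + x (i + j)) ≤ 2 * X.card := by
      by_contra hcon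
      push Not at hcon
      have h3 : ∑ i : ZMod k, (2 * X.card + 1) ≤ ∑ i : ZMod k, k * (x i + x (i + j)) :=
        Finset.sum_le_sum fun i _ => hcon i
      have h4 : ∑ i : ZMod k, x (i + j) = ∑ i, x i := Equiv.sum_comp (Equiv.addRight j) x
      rw [Finset.sum_const, ← Finset.mul_sum, Finset.sum_add_distrib, h4, Finset.card_univ,
        ZMod.card, smul_eq_mul] at h3
      have h5 := Nat.le_of_mul_le_mul_left h3 hk
      omega
    have h6 : t + (x i + x (i + j)) ≤ p := by
      have : k * (t + (x i + x (i + j))) ≤ k * p := by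
        calc k * (t + (x i + x (i + j))) = t * k + k * (x i + x (i + j)) := by ring
          _ ≤ t * k + 2 * X.card := by omega
          _ ≤ k * p := hA
      exact Nat.le_of_mul_le_mul_left this hk
    refine bicl_false G X (fun u : ZMod p => e (Sum.inl (i, u)))
      (fun u : ZMod p => e (Sum.inl (i + j, u))) (hinl i) (hinl _) (fun u v => h i u v) t ?_ ?_ hG1
    · rw [ZMod.card]
      have : (univ.filter (fun u : ZMod p => e (Sum.inl (i, u)) ∈ X)).card = x i := rfl
      omega
    · rw [ZMod.card]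
      have : (univ.filter (fun u : ZMod p => e (Sum.inl (i + j, u)) ∈ X)).card = x (i + j) := rfl
      omega
  · obtain ⟨i, hi⟩ : ∃ i : ZMod k, k * x i ≤ X.card := by
      by_contra hcon
      push Not at hcon
      have h3 : ∑ i : ZMod k, (X.card + 1) ≤ ∑ i : ZMod k, k * x i :=
        Finset.sum_le_sum fun i _ => hcon i
      rw [Finset.sum_const, ← Finset.mul_sum, Finset.card_univ, ZMod.card, smul_eq_mul] at h3
      have h5 := Nat.le_of_mul_le_mul_left h3 hk
      omega
    have h6 : t + 2 * x i ≤ p := by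
      have : k * (t + 2 * x i) ≤ k * p := by
        calc k * (t + 2 * x i) = t * k + 2 * (k * x i) := by ring
          _ ≤ t * k + 2 * X.card := by omega
          _ ≤ k * p := hA
      exact Nat.le_of_mul_le_mul_left this hk
    have h7 : (univ.filter (fun u : ZMod p => e (Sum.inl (i, u)) ∈ X)).card = x i := rfl
    have := star_cayley G X (fun u : ZMod p => e (Sum.inl (i, u))) (hinl i) (g ^ k) (δ i) (hδ i)
      (h i) t (by omega) (by omega) lam hlam hG2
    linarith

end Pool.Agent.H98R2.Ev
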