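import Mathlib
import Pool.Agent.H98R2.Ev.Defs
import Pool.Agent.H98R2.Ev.T14

set_option autoImplicit false

/-! T17: a graph containing one of the four types of orbits has many edges avoiding a given small
set of vertices. -/

namespace Pool.Agent.H98R2.Ev

open Finset

/-- number of edges of `G` that avoid the set `X` -/
noncomputable def eav {V : Type} (G : SimpleGraph V) (X : Finset V) : ℕ :=
  {e : Sym2 V | e ∈ G.edgeSet ∧ ∀ v ∈ X, v ∉ e}.ncard

theorem pairs_avoid {V : Type} [Fintype V] (G : SimpleGraph V) {α : Type} [Fintype α]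
    (f₁ f₂ : α → V) (hinj : Function.Injective (fun a => (f₁ a, f₂ a)))
    (hadj : ∀ a, G.Adj (f₁ a) (f₂ a)) (d₁ d₂ : ℕ)
    (h1 : ∀ v, {a | f₁ a = v}.ncard ≤ d₁) (h2 : ∀ v, {a | f₂ a = v}.ncard ≤ d₂) (X : Finset V) :
    Fintype.card α ≤ X.card * (d₁ + d₂) + 2 * eav G X := by
  classical
  have hcount : ∀ (f : α → V) (d : ℕ), (∀ v, {a | f a = v}.ncard ≤ d) →
      (univ.filter (fun a => f a ∈ X)).card ≤ X.card * d := by
    intro f d hf
    have hsub : (univ.filter (fun a => f a ∈ X)) =
        X.biUnion (fun v => univ.filter (fun a => f a = v)) := by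
      ext a
      simp
    rw [hsub]
    refine (Finset.card_biUnion_le).trans ?_
    refine (Finset.sum_le_card_nsmul _ _ d ?_).trans (by rw [smul_eq_mul])
    intro v _
    have := hf v
    rwa [Set.ncard_eq_toFinset_card', Set.toFinset_ofPred] at this
  have hc1 := hcount f₁ d₁ h1
  have hc2 := hcount f₂ d₂ h2
  set A3 : Finset α := univ.filter (fun a => f₁ a ∉ X ∧ f₂ a ∉ X) with hA3
  have hE : ({e : Sym2 V | e ∈ G.edgeSet ∧ ∀ v ∈ X, v ∉ e}.toFinset).card = eav G X := by
    rw [eav, Set.ncard_eq_toFinset_card']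
  have hmap : ∀ a ∈ A3, s(f₁ a, f₂ a) ∈ {e : Sym2 V | e ∈ G.edgeSet ∧ ∀ v ∈ X, v ∉ e}.toFinset := by
    intro a ha
    rw [hA3, mem_filter] at ha
    simp only [Set.mem_toFinset, Set.mem_ofPred_eq, SimpleGraph.mem_edgeSet]
    refine ⟨hadj a, fun v hv hve => ?_⟩
    rcases Sym2.mem_iff.1 hve with h | h
    · exact ha.2.1 (h ▸ hv)
    · exact ha.2.2 (h ▸ hv)
  have hc3 : A3.card ≤ 2 * eav G X := by
    rw [← hE]
    refine Finset.card_le_mul_card_image_of_maps_to hmap 2 ?_
    intro e _
    induction e using Sym2.ind with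
    | _ x y =>
      have hsub : A3.filter (fun a => s(f₁ a, f₂ a) = s(x, y)) ⊆
          (univ.filter (fun a => (f₁ a, f₂ a) = (x, y))) ∪
          (univ.filter (fun a => (f₁ a, f₂ a) = (y, x))) := by
        intro a ha
        rw [mem_filter] at ha
        rw [mem_union, mem_filter, mem_filter]
        rcases Sym2.eq_iff.1 ha.2 with ⟨h, h'⟩ | ⟨h, h'⟩
        · exact Or.inl ⟨mem_univ _, by rw [h, h']⟩
        · exact Or.inr ⟨mem_univ _, by rw [h, h']⟩
      have hone : ∀ z : V × V, (univ.filter (fun a => (f₁ a, f₂ a) = z)).card ≤ 1 := by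
        intro z
        rw [Finset.card_le_one]
        intro a ha b hb
        rw [mem_filter] at ha hb
        exact hinj (ha.2.trans hb.2.symm)
      have h3 := card_le_card hsub
      have h4 := card_union_le (univ.filter (fun a => (f₁ a, f₂ a) = (x, y)))
        (univ.filter (fun a => (f₁ a, f₂ a) = (y, x)))
      have h5 := hone (x, y)
      have h6 := hone (y, x)
      omega
  have hcover : (univ : Finset α) ⊆ (univ.filter (fun a => f₁ a ∈ X)) ∪
      (univ.filter (fun a => f₂ a ∈ X)) ∪ A3 := by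
    intro a _
    simp only [hA3, mem_union, mem_filter, mem_univ, true_and]
    tauto
  have h7 := card_le_card hcover
  have h8 := card_union_le ((univ.filter (fun a => f₁ a ∈ X)) ∪
      (univ.filter (fun a => f₂ a ∈ X))) A3
  have h9 := card_union_le (univ.filter (fun a => f₁ a ∈ X)) (univ.filter (fun a => f₂ a ∈ X))
  rw [Finset.card_univ] at h7
  have h10 : X.card * (d₁ + d₂) = X.card * d₁ + X.card * d₂ := mul_add _ _ _
  omega

/-- fibres of a map that becomes injective after adding a coordinate of size `d` -/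
theorem fib_le {α V β : Type} [Fintype α] [Fintype β] (f : α → V) (c : α → β)
    (h : ∀ a b, f a = f b → c a = c b → a = b) (v : V) :
    {a | f a = v}.ncard ≤ Fintype.card β := by
  classical
  rw [Set.ncard_eq_toFinset_card', ← Finset.card_univ (α := β)]
  refine Finset.card_le_card_of_injOn c (fun _ _ => mem_univ _) ?_
  intro a ha b hb hab
  simp only [Set.coe_toFinset, Set.mem_ofPred_eq] at ha hb
  exact h a b (ha.trans hb.symm) hab

theorem edges_avoid {k p r : ℕ} [NeZero k] [Fact p.Prime] [Fact r.Prime] {V : Type} [Fintype V]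
    (G : SimpleGraph V) (e : VV k p r → V) (he : Function.Injective e) (g : (ZMod p)ˣ)
    (w : (ZMod r)ˣ) (X : Finset V) (N : ℕ)
    (h1 : N + X.card * (orderOf w + orderOf w) ≤ r * orderOf w)
    (h2 : N + X.card * (r + k * p) ≤ k * p * r)
    (h3 : N + X.card * (p + p) ≤ k * p * p)
    (h4 : N + X.card * (orderOf (g ^ k) + orderOf (g ^ k)) ≤ k * p * orderOf (g ^ k))
    (hT : HasType g w (fun a b => G.Adj (e a) (e b))) : N ≤ 2 * eav G X := by
  classical
  rcases hT with ⟨δ, hδ, h⟩ | h | ⟨j, hj, h⟩ | ⟨δ, hδ, h⟩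
  · have key := pairs_avoid G (α := ZMod r × Fin (orderOf w)) (fun z => e (Sum.inr z.1))
      (fun z => e (Sum.inr (z.1 + ((w ^ (z.2 : ℕ) : (ZMod r)ˣ) : ZMod r) * δ))) ?_
      (fun z => h z.1 z.2) (orderOf w) (orderOf w) ?_ ?_ X
    · simp only [Fintype.card_prod, ZMod.card, Fintype.card_fin] at key
      omega
    · rintro ⟨a, t⟩ ⟨a', t'⟩ hh
      simp only [Prod.mk.injEq] at hh
      obtain ⟨ha, hb⟩ := hh
      have ha' : a = a' := by simpa using he ha
      subst ha'
      have hb' := add_left_cancel (Sum.inr_injective (he hb))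
      have hg' : w ^ (t : ℕ) = w ^ (t' : ℕ) := Units.ext (mul_right_cancel₀ hδ hb')
      rw [Fin.ext (pow_injOn_Iio_orderOf t.2 t'.2 hg')]
    · intro v
      have := fib_le (α := ZMod r × Fin (orderOf w)) (fun z => e (Sum.inr z.1)) (fun z => z.2) ?_ v
      · simpa using this
      · rintro ⟨a, t⟩ ⟨a', t'⟩ hh hc
        have ha' : a = a' := by simpa using he hh
        simp only at hc
        rw [ha', hc]
    · intro v
      have := fib_le (α := ZMod r × Fin (orderOf w))
        (fun z => e (Sum.inr (z.1 + ((w ^ (z.2 : ℕ) : (ZMod r)ˣ) : ZMod r) * δ)))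
        (fun z => z.2) ?_ v
      · simpa using this
      · rintro ⟨a, t⟩ ⟨a', t'⟩ hh hc
        simp only at hc
        subst hc
        have hb := Sum.inr_injective (he hh)
        have hb' := add_right_cancel hb
        exact Prod.ext hb' rfl
  · have key := pairs_avoid G (α := (ZMod k × ZMod p) × ZMod r) (fun z => e (Sum.inl z.1))
      (fun z => e (Sum.inr z.2)) ?_ (fun z => h z.1 z.2) r (k * p) ?_ ?_ X
    · simp only [Fintype.card_prod, ZMod.card] at key
      omega
    · rintro ⟨a, b⟩ ⟨a', b'⟩ hh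
      simp only [Prod.mk.injEq] at hh
      have ha' := Sum.inl_injective (he hh.1)
      have hb' := Sum.inr_injective (he hh.2)
      rw [ha', hb']
    · intro v
      have := fib_le (α := (ZMod k × ZMod p) × ZMod r) (fun z => e (Sum.inl z.1))
        (fun z => z.2) ?_ v
      · simpa [ZMod.card] using this
      · rintro ⟨a, b⟩ ⟨a', b'⟩ hh hc
        have ha' := Sum.inl_injective (he hh)
        exact Prod.ext ha' hc
    · intro v
      have := fib_le (α := (ZMod k × ZMod p) × ZMod r) (fun z => e (Sum.inr z.2))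
        (fun z => z.1) ?_ v
      · simpa [ZMod.card] using this
      · rintro ⟨a, b⟩ ⟨a', b'⟩ hh hc
        have ha' := Sum.inr_injective (he hh)
        exact Prod.ext hc ha'
  · have key := pairs_avoid G (α := ZMod k × ZMod p × ZMod p)
      (fun z => e (Sum.inl (z.1, z.2.1))) (fun z => e (Sum.inl (z.1 + j, z.2.2))) ?_
      (fun z => h z.1 z.2.1 z.2.2) p p ?_ ?_ X
    · simp only [Fintype.card_prod, ZMod.card] at key
      rw [← mul_assoc] at key
      omega
    · rintro ⟨a, b, c⟩ ⟨a', b', c'⟩ hh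
      simp only [Prod.mk.injEq] at hh
      have ha' := Sum.inl_injective (he hh.1)
      have hb' := Sum.inl_injective (he hh.2)
      simp only [Prod.mk.injEq] at ha' hb'
      rw [ha'.1, ha'.2, hb'.2]
    · intro v
      have := fib_le (α := ZMod k × ZMod p × ZMod p) (fun z => e (Sum.inl (z.1, z.2.1)))
        (fun z => z.2.2) ?_ v
      · simpa [ZMod.card] using this
      · rintro ⟨a, b, c⟩ ⟨a', b', c'⟩ hh hc
        have ha' := Sum.inl_injective (he hh)
        simp only [Prod.mk.injEq] at ha'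
        simp only at hc
        rw [ha'.1, ha'.2, hc]
    · intro v
      have := fib_le (α := ZMod k × ZMod p × ZMod p) (fun z => e (Sum.inl (z.1 + j, z.2.2)))
        (fun z => z.2.1) ?_ v
      · simpa [ZMod.card] using this
      · rintro ⟨a, b, c⟩ ⟨a', b', c'⟩ hh hc
        have ha' := Sum.inl_injective (he hh)
        simp only [Prod.mk.injEq, add_left_inj] at ha'
        simp only at hc
        rw [ha'.1, ha'.2, hc]
  · have key := pairs_avoid G (α := (ZMod k × ZMod p) × Fin (orderOf (g ^ k)))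
      (fun z => e (Sum.inl z.1)) (fun z => e (Sum.inl (z.1.1,
        z.1.2 + (((g ^ k) ^ (z.2 : ℕ) : (ZMod p)ˣ) : ZMod p) * δ z.1.1))) ?_
      (fun z => h z.1.1 z.1.2 z.2) (orderOf (g ^ k)) (orderOf (g ^ k)) ?_ ?_ X
    · simp only [Fintype.card_prod, ZMod.card, Fintype.card_fin] at key
      omega
    · rintro ⟨⟨a, b⟩, t⟩ ⟨⟨a', b'⟩, t'⟩ hh
      simp only [Prod.mk.injEq] at hh
      obtain ⟨ha, hb⟩ := hh
      have ha' := Sum.inl_injective (he ha)
      simp only [Prod.mk.injEq] at ha'
      obtain ⟨rfl, rfl⟩ := ha'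
      have hb' := Sum.inl_injective (he hb)
      simp only [Prod.mk.injEq, true_and] at hb'
      have hg' : (g ^ k) ^ (t : ℕ) = (g ^ k) ^ (t' : ℕ) :=
        Units.ext (mul_right_cancel₀ (hδ a) (add_left_cancel hb'))
      rw [Fin.ext (pow_injOn_Iio_orderOf t.2 t'.2 hg')]
    · intro v
      have := fib_le (α := (ZMod k × ZMod p) × Fin (orderOf (g ^ k))) (fun z => e (Sum.inl z.1))
        (fun z => z.2) ?_ v
      · simpa using this
      · rintro ⟨a, t⟩ ⟨a', t'⟩ hh hc
        have ha' := Sum.inl_injective (he hh)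
        exact Prod.ext ha' hc
    · intro v
      have := fib_le (α := (ZMod k × ZMod p) × Fin (orderOf (g ^ k)))
        (fun z => e (Sum.inl (z.1.1,
          z.1.2 + (((g ^ k) ^ (z.2 : ℕ) : (ZMod p)ˣ) : ZMod p) * δ z.1.1)))
        (fun z => z.2) ?_ v
      · simpa using this
      · rintro ⟨⟨a, b⟩, t⟩ ⟨⟨a', b'⟩, t'⟩ hh hc
        simp only at hc
        subst hc
        have hb' := Sum.inl_injective (he hh)
        simp only [Prod.mk.injEq] at hb'
        obtain ⟨rfl, hb2⟩ := hb'
        rw [add_right_cancel hb2]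

end Pool.Agent.H98R2.Ev
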