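import Mathlib

set_option autoImplicit false

/-! T18: duality for query strategies. -/

namespace Pool.Agent.H98R2.Ev

open Finset

theorem iter_subset18 {α : Type} [DecidableEq α] (f : Finset α → α) (k : ℕ) (Q : Finset α) :
    Q ⊆ (fun Q : Finset α => insert (f Q) Q)^[k] Q := by
  induction k generalizing Q with
  | zero => simp
  | succ k ih =>
    rw [Function.iterate_succ_apply]
    exact (Finset.subset_insert _ _).trans (ih _)

theorem iter_agree18 (n : ℕ) (s : Finset (Sym2 (Fin n)) → SimpleGraph (Fin n) → Sym2 (Fin n))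
    (hs : ∀ (Q : Finset (Sym2 (Fin n))) (G H : SimpleGraph (Fin n)),
      (∀ e ∈ Q, (e ∈ G.edgeSet ↔ e ∈ H.edgeSet)) → s Q G = s Q H)
    (A B : SimpleGraph (Fin n)) (k : ℕ) (Q : Finset (Sym2 (Fin n)))
    (h : ∀ e ∈ (fun Q : Finset (Sym2 (Fin n)) => insert (s Q A) Q)^[k] Q,
      (e ∈ A.edgeSet ↔ e ∈ B.edgeSet)) :
    (fun Q : Finset (Sym2 (Fin n)) => insert (s Q A) Q)^[k] Q =
      (fun Q : Finset (Sym2 (Fin n)) => insert (s Q B) Q)^[k] Q := by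
  induction k generalizing Q with
  | zero => rfl
  | succ k ih =>
    rw [Function.iterate_succ_apply] at h
    rw [Function.iterate_succ_apply, Function.iterate_succ_apply]
    have h1 : s Q A = s Q B := by
      apply hs
      intro e he
      apply h
      exact iter_subset18 (fun Q => s Q A) k _ (Finset.mem_insert_of_mem he)
    rw [← h1]
    exact ih _ h

theorem mem_compl18 {n : ℕ} (G H : SimpleGraph (Fin n)) (e : Sym2 (Fin n))
    (h : e ∈ G.edgeSet ↔ e ∈ H.edgeSet) : e ∈ Gᶜ.edgeSet ↔ e ∈ Hᶜ.edgeSet := by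
  induction e using Sym2.ind with
  | _ a b =>
    simp only [SimpleGraph.mem_edgeSet, SimpleGraph.compl_adj] at h ⊢
    rw [h]

/-- duality: `P ↦ (G ↦ ¬ P Gᶜ)` -/
theorem dual_strategy18 (n : ℕ) (P : SimpleGraph (Fin n) → Prop)
    (h : ∀ s : Finset (Sym2 (Fin n)) → SimpleGraph (Fin n) → Sym2 (Fin n),
      (∀ (Q : Finset (Sym2 (Fin n))) (G H : SimpleGraph (Fin n)),
        (∀ e ∈ Q, (e ∈ G.edgeSet ↔ e ∈ H.edgeSet)) → s Q G = s Q H) →
      ∃ G H : SimpleGraph (Fin n),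
        (∀ e ∈ (fun Q : Finset (Sym2 (Fin n)) => insert (s Q G) Q)^[n.choose 2 - 1]
          (∅ : Finset (Sym2 (Fin n))), (e ∈ G.edgeSet ↔ e ∈ H.edgeSet)) ∧
          (¬ P Gᶜ) ∧ ¬ (¬ P Hᶜ))
    (s : Finset (Sym2 (Fin n)) → SimpleGraph (Fin n) → Sym2 (Fin n))
    (hs : ∀ (Q : Finset (Sym2 (Fin n))) (G H : SimpleGraph (Fin n)),
      (∀ e ∈ Q, (e ∈ G.edgeSet ↔ e ∈ H.edgeSet)) → s Q G = s Q H) :
    ∃ G H : SimpleGraph (Fin n),
      (∀ e ∈ (fun Q : Finset (Sym2 (Fin n)) => insert (s Q G) Q)^[n.choose 2 - 1]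
        (∅ : Finset (Sym2 (Fin n))), (e ∈ G.edgeSet ↔ e ∈ H.edgeSet)) ∧ P G ∧ ¬ P H := by
  obtain ⟨G, H, hGH, hG, hH⟩ := h (fun Q G => s Q Gᶜ) (by
    intro Q G H hQ
    exact hs Q _ _ fun e he => mem_compl18 G H e (hQ e he))
  have h1 : ∀ e ∈ (fun Q : Finset (Sym2 (Fin n)) => insert (s Q Gᶜ) Q)^[n.choose 2 - 1]
      (∅ : Finset (Sym2 (Fin n))), (e ∈ Gᶜ.edgeSet ↔ e ∈ Hᶜ.edgeSet) :=
    fun e he => mem_compl18 G H e (hGH e he)
  have h2 := iter_agree18 n s hs Gᶜ Hᶜ _ _ h1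
  refine ⟨Hᶜ, Gᶜ, ?_, by simpa using hH, hG⟩
  intro e he
  rw [← h2] at he
  exact (h1 e he).symm

end Pool.Agent.H98R2.Ev
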